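import Pool.Agent.H408Z.DP.Defs

/-!
# Functions on a finite cube
-/

open Finset Function

namespace Pool.Agent.H408Z.DP

variable {ι κ : Type*} [Fintype ι] [DecidableEq ι] [Fintype κ] [DecidableEq κ]

theorem sum_split (e : ι) (f : (ι → Bool) → ℝ) :
    ∑ η, f η = (1 / 2) * ∑ η : ι → Bool, (f (update η e true) + f (update η e false)) := by
  have hi : Function.Involutive fun η : ι → Bool => update η e (!η e) := by
    intro η
    simp
  have h1 : ∑ η, f η = ∑ η : ι → Bool, f (update η e (!η e)) :=
    (Equiv.sum_comp hi.toPerm f).symm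
  have h2 : ∑ η : ι → Bool, (f (update η e true) + f (update η e false)) =
      ∑ η : ι → Bool, (f η + f (update η e (!η e))) := by
    refine Finset.sum_congr rfl fun η _ => ?_
    cases h : η e
    · rw [add_comm]
      congr 2
      rw [← h, update_eq_self]
    · congr 2
      rw [← h, update_eq_self]
  rw [h2, Finset.sum_add_distrib, ← h1]
  ring

theorem sum_prod_one {w : Bool → ℝ} (hw : w true + w false = 1) :
    ∑ η : ι → Bool, ∏ e, w (η e) = 1 := by
  have h := Finset.prod_univ_sum (fun _ : ι => (univ : Finset Bool)) fun _ b => w b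
  rw [Fintype.piFinset_univ] at h
  rw [← h]
  simp [hw]

theorem sum_wt_comp {p : ℝ} {j : ι → κ} (hj : Injective j) (k : (ι → Bool) → ℝ) :
    ∑ η : κ → Bool, wt p η * k (η ∘ j) = ∑ η, wt p η * k η := by
  classical
  let e : ι ⊕ ((Set.range j)ᶜ : Set κ) ≃ κ :=
    ((Equiv.ofInjective j hj).sumCongr (Equiv.refl _)).trans (Equiv.Set.sumCompl (Set.range j))
  have he : ∀ i, e (Sum.inl i) = j i := fun i => rfl
  let E : (ι → Bool) × (((Set.range j)ᶜ : Set κ) → Bool) ≃ (κ → Bool) :=
    (Equiv.sumArrowEquivProdArrow _ _ Bool).symm.trans (e.arrowCongr (Equiv.refl _))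
  have hE : ∀ q x, E q (e x) = Sum.elim q.1 q.2 x := by
    intro q x
    simp only [E, Equiv.trans_apply, Equiv.arrowCongr_apply, Equiv.coe_refl, comp_apply, id,
      Equiv.symm_apply_apply]
    cases x <;> rfl
  rw [← E.sum_comp, Fintype.sum_prod_type]
  refine Finset.sum_congr rfl fun η _ => ?_
  have h1 : ∀ ζ, (E (η, ζ)) ∘ j = η := fun ζ => funext fun i => hE (η, ζ) (Sum.inl i)
  have h2 : ∀ ζ, wt p (E (η, ζ)) = wt p η * wt p ζ := by
    intro ζ
    unfold wt
    rw [← e.prod_comp, Fintype.prod_sum_type]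
    simp only [hE, Sum.elim_inl, Sum.elim_inr]
  simp only [h1, h2]
  rw [← Finset.sum_mul, ← Finset.mul_sum]
  have h3 : ∑ ζ : ((Set.range j)ᶜ : Set κ) → Bool, wt p ζ = 1 :=
    sum_prod_one (w := fun b => if b then p else 1 - p) (by simp)
  rw [h3, mul_one]

variable (r : Bool → ℝ)

/-- The product vector. -/
def rho (η : ι → Bool) : ℝ := ∏ e, r (η e)

/-- The symmetrised resampling operator. -/
def SS (e : ι) (a : (ι → Bool) → ℝ) (η : ι → Bool) : ℝ :=
  r (η e) * (r true * a (update η e true) + r false * a (update η e false))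

/-- The Dirichlet form of one resampling operator. -/
def TT (e : ι) (a : (ι → Bool) → ℝ) : ℝ := ∑ η, (a η - SS r e a η) ^ 2

variable {r}

theorem TT_nonneg (e : ι) (a : (ι → Bool) → ℝ) : 0 ≤ TT r e a :=
  Finset.sum_nonneg fun _ _ => sq_nonneg _

theorem SS_symm (e : ι) (a b : (ι → Bool) → ℝ) :
    ∑ η, a η * SS r e b η = ∑ η, SS r e a η * b η := by
  rw [sum_split e, sum_split e fun η => SS r e a η * b η]
  congr 1
  refine Finset.sum_congr rfl fun η _ => ?_
  simp only [SS, update_self, update_idem]
  ring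

theorem SS_comm (e e' : ι) (a : (ι → Bool) → ℝ) : SS r e (SS r e' a) = SS r e' (SS r e a) := by
  by_cases h : e = e'
  · rw [h]
  · funext η
    simp only [SS, update_of_ne h, update_of_ne (Ne.symm h), update_comm h]
    ring

theorem SS_sub (e : ι) (a b : (ι → Bool) → ℝ) :
    SS r e (fun η => a η - b η) = fun η => SS r e a η - SS r e b η := by
  funext η
  simp only [SS]
  ring

theorem rho_update (e : ι) (η : ι → Bool) (b : Bool) :
    rho r (update η e b) = r b * ∏ e' ∈ univ.erase e, r (η e') := by
  unfold rho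
  rw [← Finset.mul_prod_erase univ _ (mem_univ e), update_self]
  congr 1
  exact Finset.prod_congr rfl fun e' he => by rw [update_of_ne (Finset.ne_of_mem_erase he)]

variable (hr : r true ^ 2 + r false ^ 2 = 1)
include hr

theorem SS_rho_mul (e : ι) (g : (ι → Bool) → ℝ) (η : ι → Bool) :
    SS r e (fun η => rho r η * g η) η =
      rho r η * (r true ^ 2 * g (update η e true) + r false ^ 2 * g (update η e false)) := by
  have h := rho_update (r := r) e η (η e)
  rw [update_eq_self] at h
  simp only [SS, rho_update, h]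
  ring

theorem SS_rho (e : ι) : SS r e (rho r) = rho r := by
  funext η
  simpa [hr] using SS_rho_mul hr e (fun _ => 1) η

theorem SS_idem (e : ι) (a : (ι → Bool) → ℝ) : SS r e (SS r e a) = SS r e a := by
  funext η
  simp only [SS, update_self, update_idem]
  linear_combination r (η e) * (r true * a (update η e true) + r false * a (update η e false)) * hr

theorem sum_rho_sq : ∑ η : ι → Bool, rho r η ^ 2 = 1 := by
  simp only [rho, ← Finset.prod_pow]
  exact sum_prod_one (w := fun b => r b ^ 2) hr

theorem TT_eq (e : ι) (a : (ι → Bool) → ℝ) : TT r e a =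
    (1 / 2) * ∑ η : ι → Bool, (r true * a (update η e false) - r false * a (update η e true)) ^ 2 := by
  rw [TT, sum_split e]
  congr 1
  refine Finset.sum_congr rfl fun η _ => ?_
  simp only [SS, update_self, update_idem]
  linear_combination ((r true * a (update η e true) + r false * a (update η e false)) ^ 2 -
    a (update η e true) ^ 2 - a (update η e false) ^ 2) * hr

theorem dot_SS (e : ι) (a : (ι → Bool) → ℝ) : ∑ η, a η * SS r e a η = ∑ η, SS r e a η ^ 2 := by
  conv_lhs => rw [← SS_idem hr e a, SS_symm]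
  simp only [sq]

theorem TT_eq' (e : ι) (a : (ι → Bool) → ℝ) : TT r e a = ∑ η, a η ^ 2 - ∑ η, SS r e a η ^ 2 := by
  have h := dot_SS hr e a
  have h1 : TT r e a = ∑ η, a η ^ 2 - 2 * ∑ η, a η * SS r e a η + ∑ η, SS r e a η ^ 2 := by
    rw [TT, Finset.mul_sum, ← Finset.sum_sub_distrib, ← Finset.sum_add_distrib]
    exact Finset.sum_congr rfl fun η _ => by ring
  linarith

theorem TT_eq'' (e : ι) (a : (ι → Bool) → ℝ) : ∑ η, a η * (SS r e a η - a η) = -TT r e a := by
  rw [TT_eq' hr, ← dot_SS hr, neg_sub, ← Finset.sum_sub_distrib]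
  exact Finset.sum_congr rfl fun η _ => by ring

theorem TT_SS (e e' : ι) (a : (ι → Bool) → ℝ) : TT r e (SS r e' a) ≤ TT r e a := by
  have h1 := TT_nonneg (r := r) e' fun η => a η - SS r e a η
  rw [TT_eq' hr, SS_sub, SS_comm e' e, sub_nonneg] at h1
  exact h1

theorem edge_ineq (e : ι) (a b : (ι → Bool) → ℝ) :
    r true ^ 2 * ∑ η, (a η - b η) ^ 2 ≤
      2 * ∑ η : ι → Bool, (if η e then 1 else 0) * (a η - b η) ^ 2 + 4 * TT r e a + 4 * TT r e b := by
  rw [TT_eq hr, TT_eq hr, sum_split e, sum_split e fun η => (if η e then 1 else 0) * (a η - b η) ^ 2]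
  simp only [Finset.mul_sum, ← Finset.sum_add_distrib]
  refine Finset.sum_le_sum fun η _ => ?_
  simp only [update_self, if_true, Bool.false_eq_true, if_false]
  set a1 := a (update η e true)
  set a0 := a (update η e false)
  set b1 := b (update η e true)
  set b0 := b (update η e false)
  have h1 := sq_nonneg (r true * (a0 - b0) - 2 * (r false * (a1 - b1)))
  have h2 := sq_nonneg ((r true * a0 - r false * a1) + (r true * b0 - r false * b1))
  have h3 := mul_nonneg (sq_nonneg (r true)) (sq_nonneg (a1 - b1))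
  have h4 : (a1 - b1) ^ 2 = (r true ^ 2 + r false ^ 2) * (a1 - b1) ^ 2 := by rw [hr, one_mul]
  nlinarith

theorem fixed_eq (h1 : r true ≠ 0) {k : (ι → Bool) → ℝ} (hk : ∀ e, SS r e k = k) :
    ∃ c, ∀ η, k η = c * rho r η := by
  have key : ∀ {k : (ι → Bool) → ℝ}, (∀ e, SS r e k = k) → ∀ e η,
      k (update η e false) * r true = k (update η e true) * r false := by
    intro k hk e η
    rw [← congrFun (hk e) (update η e false), ← congrFun (hk e) (update η e true)]
    simp only [SS, update_self, update_idem]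
    ring
  have h2 : rho r (fun _ : ι => true) ≠ 0 := Finset.prod_ne_zero_iff.2 fun _ _ => h1
  refine ⟨k (fun _ => true) / rho r (fun _ : ι => true), fun η => ?_⟩
  have h3 : ∀ s : Finset ι, k (fun e => decide (e ∉ s)) =
      k (fun _ => true) / rho r (fun _ : ι => true) * rho r (fun e => decide (e ∉ s)) := by
    intro s
    induction s using Finset.induction_on with
    | empty =>
      simp only [Finset.notMem_empty, not_false_eq_true, decide_true]
      field_simp
    | insert e s he ih =>
      have h4 : (fun e' => decide (e' ∉ insert e s)) = update (fun e' => decide (e' ∉ s)) e false := by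
        funext e'
        by_cases h : e' = e <;> simp [h]
      have h5 : (fun e' => decide (e' ∉ s)) = update (fun e' => decide (e' ∉ s)) e true := by
        funext e'
        by_cases h : e' = e <;> simp [h, he]
      have h6 := key hk e fun e' => decide (e' ∉ s)
      have h7 := key (SS_rho hr) e fun e' => decide (e' ∉ s)
      rw [← h4, ← h5] at h6 h7
      refine mul_right_cancel₀ h1 ?_
      rw [h6, ih, mul_assoc, mul_assoc, h7]
  have h4 : η = fun e => decide (e ∉ univ.filter fun e => η e = false) := by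
    funext e
    simp
  rw [h4]
  exact h3 _

/-- The Efron-Stein inequality. -/
theorem efron_stein (h1 : r true ≠ 0) (a : (ι → Bool) → ℝ) :
    ∑ η, a η ^ 2 - (∑ η, rho r η * a η) ^ 2 ≤ ∑ e, TT r e a := by
  have key : ∀ (l : List ι) (a : (ι → Bool) → ℝ), ∃ k : (ι → Bool) → ℝ,
      ∑ η, a η ^ 2 - ∑ η, k η ^ 2 ≤ (l.map fun e => TT r e a).sum ∧
      (∀ e, e ∈ l ∨ SS r e a = a → SS r e k = k) ∧ ∑ η, rho r η * k η = ∑ η, rho r η * a η := by
    intro l
    induction l with
    | nil => exact fun a => ⟨a, by simp, fun e h => by simpa using h, rfl⟩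
    | cons e l ih =>
      intro a
      obtain ⟨k, h2, h3, h4⟩ := ih (SS r e a)
      refine ⟨k, ?_, fun e' he => h3 e' ?_, ?_⟩
      · have h5 : (l.map fun e' => TT r e' (SS r e a)).sum ≤ (l.map fun e' => TT r e' a).sum :=
          List.sum_le_sum fun e' _ => TT_SS hr e' e a
        rw [List.map_cons, List.sum_cons, TT_eq' hr e]
        linarith
      · rcases he with he | he
        · rcases List.mem_cons.1 he with rfl | he
          · exact Or.inr (SS_idem hr _ _)
          · exact Or.inl he
        · exact Or.inr (by rw [SS_comm, he])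
      · rw [h4, SS_symm, SS_rho hr]
  obtain ⟨k, h2, h3, h4⟩ := key univ.toList a
  obtain ⟨c, hc⟩ := fixed_eq hr h1 fun e => h3 e (Or.inl (by simp))
  rw [Finset.sum_map_toList] at h2
  have h5 := sum_rho_sq (ι := ι) hr
  have h6 : ∑ η, rho r η * k η = c := by
    simp only [hc]
    conv_rhs => rw [← mul_one c, ← h5, Finset.mul_sum]
    exact Finset.sum_congr rfl fun η _ => by ring
  have h7 : ∑ η, k η ^ 2 = c ^ 2 := by
    simp only [hc, mul_pow]
    rw [← Finset.mul_sum, h5, mul_one]
  rw [← h4, h6, ← h7]
  exact h2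

end Pool.Agent.H408Z.DP
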