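import Mathlib

/-!
# Random walk on dynamical percolation: return probabilities
-/

open MeasureTheory

namespace Pool.Agent.H408Z.DP

variable {V : Type*} [DecidableEq V] (G : SimpleGraph V) [G.LocallyFinite]

open Classical in
/-- `opn η e` is `1` if the edge `e` is open in the environment `η` and `0` otherwise. -/
noncomputable def opn {D : Sym2 V → Prop} (η : {e // D e} → Bool) (e : Sym2 V) : ℝ :=
  if h : D e then (if η ⟨e, h⟩ then 1 else 0) else 0

/-- Extension by zero of a function on a finite set of vertices. -/
def ext0 {F : Finset V} (a : F → ℝ) (y : V) : ℝ := if h : y ∈ F then a ⟨y, h⟩ else 0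

/-- The edges with an endpoint in `F`. -/
def edgesAt (F : Finset V) : Finset (Sym2 V) := F.biUnion fun x => G.incidenceFinset x

/-- The states of the chain in `F`: a position in `F` and the states of the edges at `F`. -/
abbrev St (F : Finset V) : Type _ := F × (edgesAt G F → Bool)

/-- The generator of random walk on dynamical percolation, killed when the walk leaves `F`: the
walk jumps at rate one across each open edge, and each edge is resampled at rate `μ`. -/
noncomputable def gen (μ p : ℝ) (F : Finset V) (g : St G F → ℝ) (s : St G F) : ℝ :=
  ∑ y ∈ G.neighborFinset s.1, opn s.2 s(s.1.1, y) * (ext0 (fun x => g (x, s.2)) y - g s) +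
    μ * ∑ e : edgesAt G F, (p * g (s.1, Function.update s.2 e true) +
      (1 - p) * g (s.1, Function.update s.2 e false) - g s)

/-- The matrix of jump rates of the killed chain. -/
noncomputable def genM (μ p : ℝ) (F : Finset V) : Matrix (St G F) (St G F) ℝ :=
  Matrix.of fun s s' => gen G μ p F (Pi.single s' 1) s

/-- The product Bernoulli weight of a finite environment. -/
def wt {ι : Type*} [Fintype ι] (p : ℝ) (η : ι → Bool) : ℝ := ∏ e, if η e then p else 1 - p

/-- The probability that the walk started at `x`, in a stationary environment, is at `x` at time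
`t` and has not left `F` before. -/
noncomputable def killedQ (μ p : ℝ) (F : Finset V) (x : F) (t : ℝ) : ℝ :=
  ∑ η, wt p η * ∑ ξ, NormedSpace.exp (t • genM G μ p F) (x, η) (x, ξ)

/-- The annealed return probability `Q_t(o, o)`: the supremum over finite sets `F` containing `o`
of the probability to be at `o` at time `t` without having left `F`. -/
noncomputable def Q (μ p : ℝ) (o : V) (t : ℝ) : ℝ :=
  ⨆ F : {F : Finset V // o ∈ F}, killedQ G μ p F.1 ⟨o, F.2⟩ t

/-- The matrix of jump rates of simple random walk (rate one across each edge) killed when it
leaves `F`. -/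
noncomputable def lapM (F : Finset V) : Matrix F F ℝ :=
  Matrix.of fun x z => ∑ y ∈ G.neighborFinset x, (ext0 (Pi.single z 1) y - (Pi.single z 1 : F → ℝ) x)

/-- The return probability `P_t(o, o)` of simple random walk: the supremum over finite sets `F`
containing `o` of the probability to be at `o` at time `t` without having left `F`. -/
noncomputable def P (o : V) (t : ℝ) : ℝ :=
  ⨆ F : {F : Finset V // o ∈ F}, NormedSpace.exp (t • lapM G F.1) ⟨o, F.2⟩ ⟨o, F.2⟩

end Pool.Agent.H408Z.DP
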