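import Pool.Agent.H408Z.DP.Model

/-!
# Isoperimetry: Cheeger's inequality and Følner sets
-/

open Finset Function Matrix

namespace Pool.Agent.H408Z.DP

variable {V : Type*} [DecidableEq V] {G : SimpleGraph V} [G.LocallyFinite]

variable (G) in
/-- The inner vertex boundary. -/
def bd (S : Finset V) : Finset V := S.filter fun x => ∃ y ∈ G.neighborFinset x, y ∉ S

theorem coarea {κ : ℝ} (hκ : ∀ S : Finset V, κ * S.card ≤ (bd G S).card) (F : Finset V) (n : ℕ) :
    ∀ g : V → ℝ, (∀ x, 0 ≤ g x) → (∀ x ∉ F, g x = 0) → (F.filter fun x => 0 < g x).card ≤ n →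
      κ * ∑ x ∈ F, g x ≤ ∑ x ∈ F, ∑ y ∈ G.neighborFinset x, max (g x - g y) 0 := by
  have base : ∀ g : V → ℝ, (∀ x, 0 ≤ g x) → (F.filter fun x => 0 < g x) = ∅ →
      κ * ∑ x ∈ F, g x ≤ ∑ x ∈ F, ∑ y ∈ G.neighborFinset x, max (g x - g y) 0 := by
    intro g h0 h
    rw [Finset.sum_eq_zero fun x hx => le_antisymm
      (not_lt.1 (Finset.filter_eq_empty_iff.1 h hx)) (h0 x), mul_zero]
    exact Finset.sum_nonneg fun _ _ => Finset.sum_nonneg fun _ _ => le_max_right _ _
  induction n with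
  | zero => exact fun g h0 _ h => base g h0 (Finset.card_eq_zero.1 (Nat.le_zero.1 h))
  | succ n ih =>
    intro g h0 h1 h
    set S := F.filter fun x => 0 < g x with hS
    rcases S.eq_empty_or_nonempty with h2 | h2
    · exact base g h0 h2
    obtain ⟨x₀, hx₀, hm⟩ := S.exists_min_image g h2
    have hm0 : 0 < g x₀ := (Finset.mem_filter.1 hx₀).2
    have hz : ∀ x ∉ S, g x = 0 := by
      intro x hx
      by_cases h3 : x ∈ F
      · exact le_antisymm (not_lt.1 fun h4 => hx (Finset.mem_filter.2 ⟨h3, h4⟩)) (h0 x)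
      · exact h1 x h3
    have h3 := ih (fun x => if x ∈ S then g x - g x₀ else 0)
      (fun x => by split_ifs with h3; exacts [sub_nonneg.2 (hm x h3), le_rfl])
      (fun x hx => if_neg fun h3 => hx (Finset.mem_filter.1 h3).1) (by
        refine Nat.lt_succ_iff.1 (lt_of_lt_of_le ?_ h)
        refine lt_of_le_of_lt (Finset.card_le_card (t := S.erase x₀) fun x hx => ?_)
          (Finset.card_erase_lt_of_mem hx₀)
        have h4 := (Finset.mem_filter.1 hx).2
        by_cases h5 : x ∈ S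
        · rw [if_pos h5] at h4
          exact Finset.mem_erase.2 ⟨fun h6 => by simp [h6] at h4, h5⟩
        · simp [h5] at h4)
    have h4 : ∑ x ∈ F, g x = ∑ x ∈ F, (if x ∈ S then g x - g x₀ else 0) + g x₀ * S.card := by
      have h5 : g x₀ * S.card = ∑ x ∈ F, if x ∈ S then g x₀ else 0 := by
        rw [← Finset.sum_filter, Finset.filter_mem_eq_inter,
          Finset.inter_eq_right.2 (Finset.filter_subset _ _), Finset.sum_const, nsmul_eq_mul,
          mul_comm]
      rw [h5, ← Finset.sum_add_distrib]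
      refine Finset.sum_congr rfl fun x _ => ?_
      split_ifs with h6
      · ring
      · simp [hz x h6]
    have h5 : g x₀ * (bd G S).card ≤
        ∑ x ∈ F, ∑ y ∈ G.neighborFinset x, if x ∈ S ∧ y ∉ S then g x₀ else 0 := by
      have h6 : ∀ x y, 0 ≤ if x ∈ S ∧ y ∉ S then g x₀ else 0 := fun x y => by
        split_ifs
        exacts [hm0.le, le_rfl]
      refine le_trans ?_ (Finset.sum_le_sum_of_subset_of_nonneg (s := bd G S)
        ((Finset.filter_subset _ _).trans (Finset.filter_subset _ _))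
        fun x _ _ => Finset.sum_nonneg fun y _ => h6 x y)
      rw [mul_comm, ← nsmul_eq_mul]
      refine Finset.card_nsmul_le_sum _ _ _ fun x hx => ?_
      obtain ⟨h7, y, h8, h9⟩ := Finset.mem_filter.1 hx
      refine le_trans (le_of_eq ?_) (Finset.single_le_sum (fun y _ => h6 x y) h8)
      rw [if_pos ⟨h7, h9⟩]
    have h6 : ∑ x ∈ F, ∑ y ∈ G.neighborFinset x, max (g x - g y) 0 ≥
        ∑ x ∈ F, ∑ y ∈ G.neighborFinset x,
          max ((if x ∈ S then g x - g x₀ else 0) - (if y ∈ S then g y - g x₀ else 0)) 0 +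
        ∑ x ∈ F, ∑ y ∈ G.neighborFinset x, if x ∈ S ∧ y ∉ S then g x₀ else 0 := by
      rw [← Finset.sum_add_distrib]
      refine Finset.sum_le_sum fun x _ => ?_
      rw [← Finset.sum_add_distrib]
      refine Finset.sum_le_sum fun y _ => ?_
      by_cases a1 : x ∈ S <;> by_cases a2 : y ∈ S
      · simp [a1, a2]
      · have := hm x a1
        simp only [a1, a2, if_true, if_false, not_false_eq_true, and_self, hz y a2, sub_zero]
        rw [max_eq_left (sub_nonneg.2 this), max_eq_left (h0 x)]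
        linarith
      · have := hm y a2
        simp only [a1, a2, if_true, if_false, false_and, add_zero, zero_sub]
        exact max_le (le_trans (by linarith) (le_max_right _ _)) (le_max_right _ _)
      · simp [a1, a2]
    have h7 := mul_le_mul_of_nonneg_left (hκ S) hm0.le
    rw [h4]
    nlinarith

theorem cheeger {κ : ℝ} (hκ0 : 0 < κ) (hκ : ∀ S : Finset V, κ * S.card ≤ (bd G S).card) {d : ℕ}
    (hd : ∀ x, G.degree x ≤ d) : ∃ c > 0, ∀ (F : Finset V) (a : F → ℝ),
      c * (a ⬝ᵥ a) ≤ qf G (fun _ => 1) a := by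
  have hd0 : (0 : ℝ) ≤ d := Nat.cast_nonneg d
  set l : ℝ := κ / (4 * d + 1) with hl
  have hl0 : 0 < l := by positivity
  refine ⟨l * κ / 2, by positivity, fun F a => ?_⟩
  have h1 := coarea hκ F _ (fun x => ext0 a x ^ 2) (fun x => sq_nonneg _)
    (fun x hx => by simp [ext0_of_notMem _ hx]) le_rfl
  rw [← Finset.sum_coe_sort F, ← Finset.sum_coe_sort F] at h1
  have h2 : a ⬝ᵥ a = ∑ x : F, ext0 a x ^ 2 :=
    Finset.sum_congr rfl fun x _ => by rw [ext0_coe, sq]
  have h3 : ∑ x : F, ∑ y ∈ G.neighborFinset x, ext0 a x ^ 2 ≤ d * ∑ x : F, ext0 a x ^ 2 := by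
    rw [Finset.mul_sum]
    refine Finset.sum_le_sum fun x _ => ?_
    rw [Finset.sum_const, nsmul_eq_mul, SimpleGraph.card_neighborFinset_eq_degree]
    exact mul_le_mul_of_nonneg_right (by exact_mod_cast hd x) (sq_nonneg _)
  have h4 : ∑ x : F, ∑ y ∈ G.neighborFinset x, ext0 a y ^ 2 ≤
      ∑ x : F, ∑ y ∈ G.neighborFinset x, ext0 a x ^ 2 := by
    have h5 := swap_sum (G := G) (F := F) fun x y => ext0 a y ^ 2
    refine le_trans (le_of_eq ?_) (h5.le.trans ?_)
    · refine Finset.sum_congr rfl fun x _ => Finset.sum_congr rfl fun y _ => ?_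
      split_ifs with h
      · rfl
      · simp [ext0_of_notMem _ h]
    · refine Finset.sum_le_sum fun x _ => Finset.sum_le_sum fun y _ => ?_
      split_ifs
      exacts [le_rfl, sq_nonneg _]
  have h5 : l * ∑ x : F, ∑ y ∈ G.neighborFinset x, max (ext0 a x ^ 2 - ext0 a y ^ 2) 0 ≤
      qf G (fun _ => 1) a + l ^ 2 * (∑ x : F, ∑ y ∈ G.neighborFinset x, ext0 a x ^ 2 +
        ∑ x : F, ∑ y ∈ G.neighborFinset x, ext0 a y ^ 2) := by
    simp only [qf, ← Finset.sum_add_distrib, Finset.mul_sum]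
    refine Finset.sum_le_sum fun x _ => Finset.sum_le_sum fun y _ => ?_
    have h6 : (1 / 2 : ℝ) ≤ (if y ∈ F then 1 / 2 else 1) := by split_ifs <;> norm_num
    have h7 := mul_le_mul_of_nonneg_right h6 (sq_nonneg (ext0 a x - ext0 a y))
    rw [mul_max_of_nonneg _ _ hl0.le, mul_zero, mul_one]
    refine max_le ?_ (by positivity)
    nlinarith [sq_nonneg (ext0 a x - ext0 a y - l * (ext0 a x + ext0 a y)),
      sq_nonneg (l * (ext0 a x - ext0 a y))]
  rw [h2]
  set N := ∑ x : F, ext0 a x ^ 2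
  have hN : 0 ≤ N := Finset.sum_nonneg fun _ _ => sq_nonneg _
  have h6 := mul_le_mul_of_nonneg_left h1 hl0.le
  have h7 : l * (4 * d + 1) = κ := by
    rw [hl]
    field_simp
  have h8 : l ^ 2 * (2 * (d * N)) ≤ l * κ / 2 * N := by
    rw [← h7]
    nlinarith [mul_nonneg (sq_nonneg l) hN]
  have h9 := mul_le_mul_of_nonneg_left (add_le_add h3 (h4.trans h3)) (sq_nonneg l)
  nlinarith

open Classical in
theorem card_bad {d : ℕ} (hd : ∀ x, G.degree x ≤ d) (R : ℕ) : ∃ K : ℕ, ∀ F : Finset V,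
    (F.filter fun x => ∃ y ∉ F, ∃ w : G.Walk x y, w.length ≤ R).card ≤ K * (bd G F).card := by
  induction R with
  | zero =>
    refine ⟨0, fun F => ?_⟩
    rw [zero_mul, Nat.le_zero, Finset.card_eq_zero, Finset.filter_eq_empty_iff]
    rintro x hx ⟨y, hy, w, hw⟩
    exact hy (w.eq_of_length_eq_zero (Nat.le_zero.1 hw) ▸ hx)
  | succ R ih =>
    obtain ⟨K, hK⟩ := ih
    refine ⟨1 + K * d, fun F => ?_⟩
    refine (Finset.card_le_card (t := bd G F ∪ (F.filter fun x => ∃ y ∉ F, ∃ w : G.Walk x y,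
      w.length ≤ R).biUnion fun z => G.neighborFinset z) fun x hx => ?_).trans ?_
    · obtain ⟨hx, y, hy, w, hw⟩ := Finset.mem_filter.1 hx
      cases w with
      | nil => exact absurd hx hy
      | @cons _ z _ h w =>
        by_cases hz : z ∈ F
        · refine Finset.mem_union_right _ (Finset.mem_biUnion.2 ⟨z, Finset.mem_filter.2
            ⟨hz, y, hy, w, by simpa using hw⟩, (G.mem_neighborFinset _ _).2 h.symm⟩)
        · exact Finset.mem_union_left _ (Finset.mem_filter.2
            ⟨hx, z, (G.mem_neighborFinset _ _).2 h, hz⟩)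
    · refine (Finset.card_union_le _ _).trans ?_
      have h1 := Finset.card_biUnion_le_card_mul (F.filter fun x => ∃ y ∉ F, ∃ w : G.Walk x y,
        w.length ≤ R) (fun z => G.neighborFinset z) d fun z _ => hd z
      have h2 := Nat.mul_le_mul_right d (hK F)
      nlinarith

open Classical in
theorem folner (hc : G.Connected) {o : V} (ht : ∀ x, ∃ φ : G ≃g G, φ o = x) {d : ℕ}
    (hd : ∀ x, G.degree x ≤ d) (ha : ∀ κ : ℝ, 0 < κ → ∃ S : Finset V, ((bd G S).card : ℝ) < κ * S.card)
    (B : Finset V) {ε : ℝ} (hε : 0 < ε) : ∃ F : Finset V, 0 < F.card ∧ (1 - ε) * F.card ≤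
      (F.filter fun x => ∃ φ : G ≃g G, φ o = x ∧ ∀ b ∈ B, φ b ∈ F).card := by
  have hw : ∀ b, G.Walk o b := fun b => (hc.preconnected o b).some
  obtain ⟨K, hK⟩ := card_bad hd (B.sup fun b => (hw b).length)
  obtain ⟨F, hF⟩ := ha (ε / (K + 1)) (by positivity)
  have h0 : (0 : ℝ) ≤ (bd G F).card := Nat.cast_nonneg _
  refine ⟨F, Nat.pos_of_ne_zero fun h => ?_, ?_⟩
  · rw [h] at hF
    simp only [Nat.cast_zero, mul_zero] at hF
    linarith
  · have h1 : F.card ≤ (F.filter fun x => ∃ φ : G ≃g G, φ o = x ∧ ∀ b ∈ B, φ b ∈ F).card +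
        K * (bd G F).card := by
      refine le_trans ?_ (Nat.add_le_add_left (hK F) _)
      refine (Finset.card_le_card fun x hx => ?_).trans (Finset.card_union_le _ _)
      obtain ⟨φ, rfl⟩ := ht x
      by_cases h : ∀ b ∈ B, φ b ∈ F
      · exact Finset.mem_union_left _ (Finset.mem_filter.2 ⟨hx, φ, rfl, h⟩)
      · push Not at h
        obtain ⟨b, hb, h⟩ := h
        refine Finset.mem_union_right _ (Finset.mem_filter.2 ⟨hx, φ b, h, (hw b).map φ.toHom, ?_⟩)
        rw [SimpleGraph.Walk.length_map]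
        exact Finset.le_sup (f := fun b => (hw b).length) hb
    have h2 : (F.card : ℝ) ≤ _ := Nat.cast_le.2 h1
    push_cast at h2
    rw [div_mul_eq_mul_div, lt_div_iff₀ (by positivity)] at hF
    nlinarith

end Pool.Agent.H408Z.DP
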