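import Pool.Agent.H408Z.DP.Mono
import Pool.Agent.H408Z.DP.Graph

/-!
# Comparison of the return probabilities
-/

open Finset Function Matrix NormedSpace

namespace Pool.Agent.H408Z.DP

variable {V : Type*} [DecidableEq V] {G : SimpleGraph V} [G.LocallyFinite]

theorem diag_eq {I : Type*} [Fintype I] [DecidableEq I] (N : Matrix I I ℝ) (x : I) :
    N x x = Pi.single x 1 ⬝ᵥ N *ᵥ Pi.single x 1 := by simp

theorem single_unit {I : Type*} [Fintype I] [DecidableEq I] (x : I) :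
    (Pi.single x 1 : I → ℝ) ⬝ᵥ Pi.single x 1 = 1 := by simp

theorem exp_upper0 {I : Type*} [Fintype I] [DecidableEq I] {N : Matrix I I ℝ} (h : N.IsSymm)
    {c t : ℝ} (ht : 0 ≤ t) (hc : ∀ w, w ⬝ᵥ N *ᵥ w ≤ -c * (w ⬝ᵥ w)) {v : I → ℝ} (hv : v ⬝ᵥ v = 1) :
    v ⬝ᵥ exp (t • N) *ᵥ v ≤ Real.exp (-c * t) := by
  simpa [hv] using exp_upper h ht hc v

theorem lap_nonpos (F : Finset V) (a : F → ℝ) : a ⬝ᵥ lapM G F *ᵥ a ≤ -0 * (a ⬝ᵥ a) := by
  rw [dot_lapM]
  simpa using qf_nonneg (fun _ => zero_le_one) a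

theorem kP_le_one (F : Finset V) (x : F) {t : ℝ} (ht : 0 ≤ t) : exp (t • lapM G F) x x ≤ 1 := by
  rw [diag_eq (exp (t • lapM G F))]
  simpa using exp_upper0 lapM_symm ht (lap_nonpos F) (single_unit x)

theorem le_kP (F : Finset V) (x : F) (t : ℝ) :
    Real.exp (-G.degree x.1 * t) ≤ exp (t • lapM G F) x x := by
  have h := jensen (lapM_symm (G := G) (F := F)) t (single_unit x)
  rwa [← diag_eq, ← diag_eq, lapM_diag, mul_comm] at h

instance (o : V) : Nonempty {F : Finset V // o ∈ F} := ⟨⟨{o}, Finset.mem_singleton_self o⟩⟩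

theorem kP_le_P (ht : ∀ x y, ∃ φ : G ≃g G, φ x = y) (o : V) (F : Finset V) (x : F) {t : ℝ}
    (h : 0 ≤ t) : exp (t • lapM G F) x x ≤ P G o t := by
  obtain ⟨φ, rfl⟩ := ht x o
  refine (killedP_mono φ (F' := F.image φ) (fun y hy => Finset.mem_image_of_mem _ hy) x h).trans ?_
  exact le_ciSup (f := fun F : {F : Finset V // φ x ∈ F} =>
    exp (t • lapM G F.1) ⟨φ x, F.2⟩ ⟨φ x, F.2⟩) ⟨1, by
      rintro _ ⟨F, rfl⟩
      exact kP_le_one _ _ h⟩ ⟨F.image φ, Finset.mem_image_of_mem _ x.2⟩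

theorem P_anti (ht : ∀ x y, ∃ φ : G ≃g G, φ x = y) (o : V) {s t : ℝ} (hs : 0 ≤ s) (h : s ≤ t) :
    P G o t ≤ P G o s := by
  refine ciSup_le fun F => le_trans ?_ (kP_le_P ht o F.1 ⟨o, F.2⟩ hs)
  rw [diag_eq (exp (t • lapM G F.1)), diag_eq (exp (s • lapM G F.1))]
  simpa using exp_upper lapM_symm h (lap_nonpos F.1) (Pi.single ⟨o, F.2⟩ 1)

theorem le_P (ht : ∀ x y, ∃ φ : G ≃g G, φ x = y) (o : V) {t : ℝ} (h : 0 ≤ t) :
    Real.exp (-G.degree o * t) ≤ P G o t :=
  (le_kP {o} ⟨o, Finset.mem_singleton_self o⟩ t).trans (kP_le_P ht o _ _ h)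

/-- The square roots of the Bernoulli weights. -/
noncomputable def rt (p : ℝ) (b : Bool) : ℝ := if b then √p else √(1 - p)

variable {μ p : ℝ} (hμ : μ ∈ Set.Ioc (0 : ℝ) 1) (hp : p ∈ Set.Ioc (0 : ℝ) 1)

include hp in
theorem rt_true : rt p true ^ 2 = p := Real.sq_sqrt hp.1.le

include hp in
theorem rt_false : rt p false ^ 2 = 1 - p := Real.sq_sqrt (sub_nonneg.2 hp.2)

include hp in
theorem rt_sum : rt p true ^ 2 + rt p false ^ 2 = 1 := by
  rw [rt_true hp, rt_false hp]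
  ring

include hμ hp

theorem sym_le (F : Finset V) (u : St G F → ℝ) : u ⬝ᵥ symM G F μ (rt p) *ᵥ u ≤
    -(p * μ / 16) * ∑ η, qf G (fun _ => 1) (fun x => u (x, η)) -
      μ / 2 * ∑ x, ∑ e : edgesAt G F, TT (rt p) e (fun η => u (x, η)) := by
  have h1 := form_ineq (rt_sum hp) u
  rw [rt_true hp] at h1
  have h2 : 0 ≤ ∑ η, qf G (opn η) (fun x => u (x, η)) :=
    Finset.sum_nonneg fun η _ => qf_nonneg (opn_nonneg η) _
  rw [quad_symM (rt_sum hp)]
  nlinarith [hμ.1, hμ.2, mul_le_mul_of_nonneg_left h1 hμ.1.le]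

theorem sym_le' (F : Finset V) {c : ℝ} (hc : ∀ a : F → ℝ, c * (a ⬝ᵥ a) ≤ qf G (fun _ => 1) a)
    (u : St G F → ℝ) : u ⬝ᵥ symM G F μ (rt p) *ᵥ u ≤ -(p * μ / 16 * c) * (u ⬝ᵥ u) := by
  have h1 := sym_le hμ hp F u
  have h2 : 0 ≤ ∑ x, ∑ e : edgesAt G F, TT (rt p) e (fun η => u (x, η)) :=
    Finset.sum_nonneg fun _ _ => Finset.sum_nonneg fun _ _ => TT_nonneg _ _
  have h3 : c * (u ⬝ᵥ u) ≤ ∑ η, qf G (fun _ => 1) (fun x => u (x, η)) := by
    rw [dotProduct, Fintype.sum_prod_type, Finset.sum_comm, Finset.mul_sum]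
    exact Finset.sum_le_sum fun η _ => hc fun x => u (x, η)
  have h4 : 0 ≤ p * μ / 16 := by have := hμ.1; have := hp.1; positivity
  nlinarith [mul_le_mul_of_nonneg_left h3 h4, mul_nonneg hμ.1.le h2]

theorem kQ_le (F : Finset V) {c : ℝ} (hc : ∀ a : F → ℝ, c * (a ⬝ᵥ a) ≤ qf G (fun _ => 1) a)
    (x : F) {t : ℝ} (ht : 0 ≤ t) : killedQ G μ p F x t ≤ Real.exp (-(p * μ / 16 * c) * t) := by
  rw [killedQ_eq (rt_true hp) (rt_false hp)]
  exact exp_upper0 (symM_symm _ _) ht (sym_le' hμ hp F hc)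
    ((WW_iso (rt_sum hp) _).trans (single_unit x))

theorem kQ_le_one (F : Finset V) (x : F) {t : ℝ} (ht : 0 ≤ t) : killedQ G μ p F x t ≤ 1 := by
  simpa using kQ_le hμ hp F (c := 0)
    (fun a => by simpa using qf_nonneg (fun _ => zero_le_one) a) x ht

omit hμ in
theorem le_kQ (F : Finset V) (x : F) {t : ℝ} (ht : 0 ≤ t) :
    Real.exp (-G.degree x.1 * t) ≤ killedQ G μ p F x t := by
  rw [killedQ_eq (rt_true hp) (rt_false hp)]
  refine le_trans (Real.exp_le_exp.2 ?_) (jensen (symM_symm _ _) t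
    ((WW_iso (rt_sum hp) _).trans (single_unit x)))
  rw [quad_WW (rt_sum hp), ← diag_eq, lapM_diag, rt_true hp]
  have h1 : (0 : ℝ) ≤ G.degree x.1 := Nat.cast_nonneg _
  nlinarith [mul_nonneg (mul_nonneg ht h1) (sub_nonneg.2 hp.2)]

theorem kQ_le_Q (ht : ∀ x y, ∃ φ : G ≃g G, φ x = y) (o : V) (F : Finset V) (x : F) {t : ℝ}
    (h : 0 ≤ t) : killedQ G μ p F x t ≤ Q G μ p o t := by
  obtain ⟨φ, rfl⟩ := ht x o
  refine (killedQ_mono φ (F' := F.image φ) (fun y hy => Finset.mem_image_of_mem _ hy) hμ.1.le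
    hp.1.le hp.2 x h).trans ?_
  exact le_ciSup (f := fun F : {F : Finset V // φ x ∈ F} => killedQ G μ p F.1 ⟨φ x, F.2⟩ t) ⟨1, by
      rintro _ ⟨F, rfl⟩
      exact kQ_le_one hμ hp _ _ h⟩ ⟨F.image φ, Finset.mem_image_of_mem _ x.2⟩

omit hμ in
theorem sum_lower (F : Finset V) {t : ℝ} (ht : 0 ≤ t) :
    ∑ x, exp ((p * t) • lapM G F) x x ≤ ∑ x, killedQ G μ p F x t := by
  have h := trace_lower (symM_symm (G := G) (F := F) μ (rt p)) (lapM_symm.smul p)
    (WW_iso (rt_sum hp)) (fun a => by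
      rw [quad_WW (rt_sum hp), rt_true hp, smul_mulVec, dotProduct_smul, smul_eq_mul]) ht
  simpa only [killedQ_eq (rt_true hp) (rt_false hp), smul_smul, mul_comm t] using h

theorem sum_upper (F : Finset V) {t : ℝ} (ht : 0 ≤ t) : ∑ x, killedQ G μ p F x t ≤
    ∑ x, exp ((p * μ / 16 * t) • lapM G F) x x + F.card * Real.exp (-(μ / 2) * t) := by
  have h0 : rt p true ≠ 0 := fun h => by
    have h1 := rt_true hp
    rw [h] at h1
    linarith [hp.1]
  have h := trace_upper (symM_symm (G := G) (F := F) μ (rt p)) ((lapM_symm (G := G)).smul (p * μ / 16))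
    (WW_iso (rt_sum hp)) (m := μ / 2) (fun u => by
      rw [smul_mulVec, dotProduct_smul, smul_eq_mul, dot_lapM]
      have h1 := sym_le hμ hp F u
      have h2 := qf_tr (rt_sum hp) u
      have h3 := es_all (rt_sum hp) h0 u
      have h4 : 0 ≤ p * μ / 16 := by have := hμ.1; have := hp.1; positivity
      nlinarith [mul_le_mul_of_nonneg_left h2 h4, mul_le_mul_of_nonneg_left h3 hμ.1.le]) ht
  simpa only [killedQ_eq (rt_true hp) (rt_false hp), smul_smul, mul_comm t, Fintype.card_coe]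
    using h

omit hμ hp in
open Classical in
theorem avg {o : V} (hF : ∀ (B : Finset V) (ε : ℝ), 0 < ε → ∃ F : Finset V, 0 < F.card ∧
      (1 - ε) * F.card ≤ (F.filter fun x => ∃ φ : G ≃g G, φ o = x ∧ ∀ b ∈ B, φ b ∈ F).card)
    {k : (F : Finset V) → F → ℝ} (h0 : ∀ F x, 0 ≤ k F x) (h1 : ∀ F x, k F x ≤ 1)
    (hm : ∀ (F F' : Finset V) (φ : G ≃g G) (hφ : ∀ x ∈ F, φ x ∈ F') (x : F),
      k F x ≤ k F' ⟨φ x, hφ x x.2⟩) {b : ℝ} (hb : ∀ F, ∑ x, k F x ≤ F.card * b)
    (B : {F : Finset V // o ∈ F}) : k B.1 ⟨o, B.2⟩ ≤ b := by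
  refine le_of_forall_pos_le_add fun ε hε => ?_
  obtain ⟨F, h2, h3⟩ := hF B.1 ε hε
  have h4 : ((F.filter fun x => ∃ φ : G ≃g G, φ o = x ∧ ∀ b ∈ B.1, φ b ∈ F).card : ℝ) *
      k B.1 ⟨o, B.2⟩ ≤ ∑ x, k F x := by
    have h5 : ∑ x, k F x = ∑ x ∈ F, ext0 (k F) x := by
      rw [← Finset.sum_coe_sort F]
      simp only [ext0_coe]
    rw [h5, ← nsmul_eq_mul]
    refine le_trans (Finset.card_nsmul_le_sum _ _ _ fun x hx => ?_)
      (Finset.sum_le_sum_of_subset_of_nonneg (Finset.filter_subset _ _)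
        fun x _ _ => ext0_nonneg (h0 F) x)
    obtain ⟨h6, φ, rfl, h7⟩ := Finset.mem_filter.1 hx
    exact (hm B.1 F φ h7 ⟨o, B.2⟩).trans (ext0_coe (k F) ⟨φ o, h6⟩).ge
  have h5 : (0 : ℝ) < F.card := by exact_mod_cast h2
  have h6 := (mul_le_mul_of_nonneg_right h3 (h0 B.1 ⟨o, B.2⟩)).trans (h4.trans (hb F))
  have h7 : (1 - ε) * k B.1 ⟨o, B.2⟩ ≤ b := le_of_mul_le_mul_left (by linarith) h5
  nlinarith [h1 B.1 ⟨o, B.2⟩]

theorem compare (hc : G.Connected) (ht : ∀ x y, ∃ φ : G ≃g G, φ x = y) (o : V) :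
    ∃ C : ℝ, 1 ≤ C ∧ ∀ t, 0 ≤ t →
      1 / C * P G o (C * t) ≤ Q G μ p o t ∧ Q G μ p o t ≤ C * P G o (t / C) := by
  have hd : ∀ x, G.degree x ≤ G.degree o := by
    intro x
    obtain ⟨φ, rfl⟩ := ht o x
    have h := sum_nbr φ o fun _ => 1
    simp only [Finset.sum_const, nsmul_eq_mul, mul_one, Nat.cast_inj] at h
    exact h.le
  have hd0 : (0 : ℝ) ≤ G.degree o := Nat.cast_nonneg _
  have hμ0 := hμ.1
  have hp0 := hp.1
  have hP0 : ∀ t, 0 ≤ t → 0 ≤ P G o t := fun t h => (Real.exp_pos _).le.trans (le_P ht o h)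
  have fin : ∀ C : ℝ, 2 ≤ C → (∀ t, 0 ≤ t → P G o (C * t) ≤ Q G μ p o t) →
      (∀ t, 0 ≤ t → Q G μ p o t ≤ 2 * P G o (t / C)) → ∃ C : ℝ, 1 ≤ C ∧ ∀ t, 0 ≤ t →
      1 / C * P G o (C * t) ≤ Q G μ p o t ∧ Q G μ p o t ≤ C * P G o (t / C) := by
    intro C hC h1 h2
    refine ⟨C, by linarith, fun t h => ⟨le_trans ?_ (h1 t h), (h2 t h).trans ?_⟩⟩
    · refine mul_le_of_le_one_left (hP0 _ (by positivity)) ?_
      rw [div_le_one (by positivity)]
      linarith
    · exact mul_le_mul_of_nonneg_right hC (hP0 _ (by positivity))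
  have hexp : ∀ C c t : ℝ, 0 < C → G.degree o ≤ c * C → 0 ≤ t →
      Real.exp (-c * t) ≤ P G o (t / C) := by
    intro C c t hC h1 h2
    refine le_trans (Real.exp_le_exp.2 ?_) (le_P ht o (by positivity))
    have h3 : t = C * (t / C) := by field_simp
    have h4 : 0 ≤ t / C := by positivity
    generalize t / C = s at h3 h4
    subst h3
    nlinarith
  by_cases ha : ∀ κ : ℝ, 0 < κ → ∃ S : Finset V, ((bd G S).card : ℝ) < κ * S.card
  · have hF := fun B ε (hε : 0 < ε) => folner hc (ht o) hd ha B hε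
    refine fin (2 + 16 / (p * μ) + 2 * G.degree o / μ)
      (by linarith [show 0 ≤ 16 / (p * μ) + 2 * G.degree o / μ by positivity])
      (fun t h => ?_) fun t h => ?_
    · refine (P_anti ht o (s := p * t) (by positivity) (mul_le_mul_of_nonneg_right ?_ h)).trans ?_
      · linarith [show 0 ≤ 16 / (p * μ) + 2 * G.degree o / μ by positivity, hp.2]
      · refine ciSup_le (avg hF (k := fun F x => exp ((p * t) • lapM G F) x x)
          (fun F x => (Real.exp_pos _).le.trans (le_kP F x _))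
          (fun F x => kP_le_one F x (by positivity))
          (fun F F' φ hφ x => killedP_mono φ hφ x (by positivity)) fun F => ?_)
        refine (sum_lower (μ := μ) hp F h).trans ?_
        rw [← Fintype.card_coe, ← nsmul_eq_mul]
        exact Finset.sum_le_card_nsmul _ _ _ fun x _ => kQ_le_Q hμ hp ht o F x h
    · set C := 2 + 16 / (p * μ) + 2 * G.degree o / μ with hC
      have hC0 : 0 < C := by positivity
      have h1 : Q G μ p o t ≤ P G o (p * μ / 16 * t) + Real.exp (-(μ / 2) * t) := by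
        refine ciSup_le (avg hF (k := fun F x => killedQ G μ p F x t)
          (fun F x => (Real.exp_pos _).le.trans (le_kQ hp F x h))
          (fun F x => kQ_le_one hμ hp F x h)
          (fun F F' φ hφ x => killedQ_mono φ hφ hμ.1.le hp.1.le hp.2 x h) fun F => ?_)
        refine (sum_upper hμ hp F h).trans ?_
        rw [mul_add]
        refine add_le_add_left ?_ _
        rw [← Fintype.card_coe, ← nsmul_eq_mul]
        exact Finset.sum_le_card_nsmul _ _ _ fun x _ => kP_le_P ht o F x (by positivity)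
      have h2 : P G o (p * μ / 16 * t) ≤ P G o (t / C) := by
        refine P_anti ht o (by positivity) ?_
        rw [div_le_iff₀ hC0]
        have h3 : p * μ / 16 * C = 1 + p * μ / 16 * (2 + 2 * G.degree o / μ) := by
          rw [hC]
          field_simp
          ring
        have h4 : 0 ≤ p * μ / 16 * (2 + 2 * G.degree o / μ) := by positivity
        nlinarith
      have h3 := hexp C (μ / 2) t hC0 (by
        have h4 : μ / 2 * C = G.degree o + μ / 2 * (2 + 16 / (p * μ)) := by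
          rw [hC]
          field_simp
          ring
        have h5 : 0 ≤ μ / 2 * (2 + 16 / (p * μ)) := by positivity
        linarith) h
      linarith
  · push Not at ha
    obtain ⟨κ, hκ, ha⟩ := ha
    obtain ⟨c, hc0, hc⟩ := cheeger hκ ha hd
    set C := 2 + G.degree o / c + G.degree o / (p * μ / 16 * c) with hC
    have hC0 : 0 < C := by positivity
    refine fin C (by
      linarith [show 0 ≤ G.degree o / c + G.degree o / (p * μ / 16 * c) by positivity])
      (fun t h => ?_) fun t h => ?_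
    · refine le_trans (ciSup_le fun F => ?_) ((le_kQ hp {o} ⟨o, Finset.mem_singleton_self o⟩ h).trans
        (kQ_le_Q hμ hp ht o _ _ h))
      rw [diag_eq (exp ((C * t) • lapM G F.1))]
      refine (exp_upper0 (c := c) lapM_symm (by positivity) (fun a => by
        rw [dot_lapM]
        linarith [hc F.1 a]) (single_unit _)).trans (Real.exp_le_exp.2 ?_)
      have h4 : c * C = G.degree o + c * (2 + G.degree o / (p * μ / 16 * c)) := by
        rw [hC]
        field_simp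
        ring
      have h5 : 0 ≤ c * (2 + G.degree o / (p * μ / 16 * c)) := by positivity
      nlinarith
    · have h1 : Q G μ p o t ≤ Real.exp (-(p * μ / 16 * c) * t) :=
        ciSup_le fun F => kQ_le hμ hp F.1 (hc F.1) _ h
      have h2 := hexp C (p * μ / 16 * c) t hC0 (by
        have h4 : p * μ / 16 * c * C = G.degree o + p * μ / 16 * c * (2 + G.degree o / c) := by
          rw [hC]
          field_simp
          ring
        have h5 : 0 ≤ p * μ / 16 * c * (2 + G.degree o / c) := by positivity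
        linarith) h
      linarith [hP0 (t / C) (by positivity)]

end Pool.Agent.H408Z.DP
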