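import Mathlib

/-!
# Matrix exponentials: positivity, spectral bounds and trace inequalities
-/

open Matrix NormedSpace Finset
open scoped Nat

namespace Pool.Agent.H408Z.DP

variable {I J : Type*} [Fintype I] [DecidableEq I] [Fintype J] [DecidableEq J]

theorem hasSum_exp_mulVec (A : Matrix I I ℝ) (g : I → ℝ) :
    HasSum (fun n : ℕ => (n !⁻¹ : ℝ) • (A ^ n *ᵥ g)) (exp A *ᵥ g) := by
  have h : HasSum (fun n : ℕ => (n !⁻¹ : ℝ) • A ^ n) (exp A) := by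
    open scoped Matrix.Norms.Operator in exact exp_series_hasSum_exp' A
  let L : Matrix I I ℝ →ₗ[ℝ] (I → ℝ) :=
    { toFun := fun B => B *ᵥ g
      map_add' := fun B C => add_mulVec B C g
      map_smul' := fun c B => smul_mulVec c B g }
  have h2 := h.map L.toAddMonoidHom L.continuous_of_finiteDimensional
  convert h2 using 1
  · funext n
    exact (smul_mulVec _ _ _).symm
  · rfl

theorem exp_eigen {A : Matrix I I ℝ} {u : I → ℝ} {a : ℝ} (h : A *ᵥ u = a • u) :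
    exp A *ᵥ u = Real.exp a • u := by
  have h1 : ∀ n : ℕ, A ^ n *ᵥ u = a ^ n • u := by
    intro n
    induction n with
    | zero => simp
    | succ n ih => rw [pow_succ', ← mulVec_mulVec, ih, mulVec_smul, h, smul_smul, pow_succ]
  have h2 := hasSum_exp_mulVec A u
  simp only [h1, smul_smul] at h2
  have h3 := (exp_series_hasSum_exp' (𝕂 := ℝ) a).smul_const u
  rw [← Real.exp_eq_exp_ℝ] at h3
  exact h2.unique h3

theorem exp_shift (A : Matrix I I ℝ) (c : ℝ) (g : I → ℝ) :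
    exp A *ᵥ g = Real.exp (-c) • (exp (A + c • 1) *ᵥ g) := by
  have h : Commute A (c • (1 : Matrix I I ℝ)) := (Commute.one_right A).smul_right c
  rw [Matrix.exp_add_of_commute _ _ h, ← mulVec_mulVec,
    exp_eigen (A := c • (1 : Matrix I I ℝ)) (a := c) (by rw [smul_mulVec, one_mulVec]),
    mulVec_smul, smul_smul, ← Real.exp_add]
  simp

theorem mulVec_nonneg {B : Matrix I J ℝ} (hB : ∀ i j, 0 ≤ B i j) {g : J → ℝ} (hg : 0 ≤ g) :
    0 ≤ B *ᵥ g := fun i => Finset.sum_nonneg fun j _ => mul_nonneg (hB i j) (hg j)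

theorem shift_nonneg {A : Matrix I I ℝ} (hA : ∀ i j, i ≠ j → 0 ≤ A i j) {c : ℝ}
    (hc : ∑ i, |A i i| ≤ c) (i j : I) : 0 ≤ (A + c • (1 : Matrix I I ℝ)) i j := by
  by_cases h : i = j
  · subst h
    have h1 : |A i i| ≤ ∑ i, |A i i| :=
      Finset.single_le_sum (f := fun i => |A i i|) (fun _ _ => abs_nonneg _) (mem_univ i)
    have h2 := neg_abs_le (A i i)
    simp only [Matrix.add_apply, Matrix.smul_apply, one_apply_eq, smul_eq_mul, mul_one]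
    linarith
  · simpa [h] using hA i j h

/-- Comparison of two semigroups with nonnegative jump rates. -/
theorem exp_mono {A : Matrix I I ℝ} {A' : Matrix J J ℝ} (hA : ∀ i j, i ≠ j → 0 ≤ A i j)
    (hA' : ∀ i j, i ≠ j → 0 ≤ A' i j) (L : (I → ℝ) →ₗ[ℝ] (J → ℝ))
    (h : ∀ g, 0 ≤ g → L (A *ᵥ g) ≤ A' *ᵥ L g) {g : I → ℝ} (hg : 0 ≤ g) :
    L (exp A *ᵥ g) ≤ exp A' *ᵥ L g := by
  set c := ∑ i, |A i i| + ∑ i, |A' i i| with hc
  have h1 := shift_nonneg hA (c := c) (le_add_of_nonneg_right (by positivity))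
  have h2 := shift_nonneg hA' (c := c) (le_add_of_nonneg_left (by positivity))
  have h3 : ∀ n : ℕ, 0 ≤ (A + c • 1) ^ n *ᵥ g ∧
      L ((A + c • 1) ^ n *ᵥ g) ≤ (A' + c • 1) ^ n *ᵥ L g := by
    intro n
    induction n with
    | zero => simpa using hg
    | succ n ih =>
      rw [pow_succ', pow_succ', ← mulVec_mulVec, ← mulVec_mulVec]
      refine ⟨mulVec_nonneg h1 ih.1, le_trans (b := (A' + c • 1) *ᵥ L ((A + c • 1) ^ n *ᵥ g))
        ?_ ?_⟩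
      · rw [add_mulVec, add_mulVec, map_add, smul_mulVec, smul_mulVec, one_mulVec, one_mulVec,
          map_smul]
        exact add_le_add_left (h _ ih.1) _
      · have h4 := mulVec_nonneg h2 (sub_nonneg.2 ih.2)
        rwa [mulVec_sub, sub_nonneg] at h4
  rw [exp_shift A c, exp_shift A' c, map_smul]
  refine smul_le_smul_of_nonneg_left ?_ (Real.exp_pos _).le
  refine hasSum_le (fun n => ?_) ((hasSum_exp_mulVec (A + c • 1) g).map L.toAddMonoidHom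
    L.continuous_of_finiteDimensional) (hasSum_exp_mulVec (A' + c • 1) (L g))
  change L _ ≤ _
  rw [map_smul]
  exact smul_le_smul_of_nonneg_left (h3 n).2 (by positivity)

theorem exp_intertwine {A : Matrix I I ℝ} {A' : Matrix J J ℝ} (L : (I → ℝ) →ₗ[ℝ] (J → ℝ))
    (h : ∀ g, L (A *ᵥ g) = A' *ᵥ L g) (g : I → ℝ) : L (exp A *ᵥ g) = exp A' *ᵥ L g := by
  have h3 : ∀ n : ℕ, L (A ^ n *ᵥ g) = A' ^ n *ᵥ L g := by
    intro n
    induction n with
    | zero => simp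
    | succ n ih => rw [pow_succ', pow_succ', ← mulVec_mulVec, ← mulVec_mulVec, h, ih]
  refine ((hasSum_exp_mulVec A g).map L.toAddMonoidHom L.continuous_of_finiteDimensional).unique ?_
  convert hasSum_exp_mulVec A' (L g) using 1
  funext n
  change L _ = _
  rw [map_smul, h3]

/-- An orthonormal eigenbasis. -/
structure Eig (N : Matrix I I ℝ) where
  /-- the eigenvectors -/
  u : I → I → ℝ
  /-- the eigenvalues -/
  n : I → ℝ
  symm : N.IsSymm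
  pars : ∀ v w, v ⬝ᵥ w = ∑ i, (u i ⬝ᵥ v) * (u i ⬝ᵥ w)
  unit : ∀ i, u i ⬝ᵥ u i = 1
  eig : ∀ i, N *ᵥ u i = n i • u i

theorem exists_eig {N : Matrix I I ℝ} (h : N.IsSymm) : Nonempty (Eig N) := by
  have hH : N.IsHermitian := by
    rw [IsHermitian, conjTranspose_eq_transpose_of_trivial]
    exact h
  have h1 : ∀ v w : EuclideanSpace ℝ I, inner ℝ v w = v.ofLp ⬝ᵥ w.ofLp := by
    intro v w
    rw [EuclideanSpace.inner_eq_star_dotProduct, dotProduct_comm]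
    simp
  refine ⟨⟨fun i => (hH.eigenvectorBasis i).ofLp, hH.eigenvalues, h, fun v w => ?_, fun i => ?_,
    fun i => hH.mulVec_eigenvectorBasis i⟩⟩
  · have h2 := hH.eigenvectorBasis.sum_inner_mul_inner (WithLp.toLp 2 v) (WithLp.toLp 2 w)
    simp only [h1] at h2
    rw [← h2]
    exact Finset.sum_congr rfl fun i _ => by rw [dotProduct_comm v]
  · rw [← h1, real_inner_self_eq_norm_sq, hH.eigenvectorBasis.orthonormal.1 i]
    norm_num

theorem symm_dot {N : Matrix I I ℝ} (h : N.IsSymm) (v w : I → ℝ) :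
    v ⬝ᵥ N *ᵥ w = (N *ᵥ v) ⬝ᵥ w := by
  rw [dotProduct_mulVec, ← mulVec_transpose, h.eq]

namespace Eig

variable {N : Matrix I I ℝ} (E : Eig N)

theorem quad (v : I → ℝ) : v ⬝ᵥ N *ᵥ v = ∑ i, (E.u i ⬝ᵥ v) ^ 2 * E.n i := by
  rw [E.pars]
  refine Finset.sum_congr rfl fun i _ => ?_
  rw [symm_dot E.symm, E.eig, smul_dotProduct, smul_eq_mul]
  ring

theorem quad_exp (t : ℝ) (v : I → ℝ) :
    v ⬝ᵥ exp (t • N) *ᵥ v = ∑ i, (E.u i ⬝ᵥ v) ^ 2 * Real.exp (t * E.n i) := by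
  rw [E.pars]
  refine Finset.sum_congr rfl fun i _ => ?_
  rw [symm_dot (E.symm.smul t).exp, exp_eigen (a := t * E.n i)
    (by rw [smul_mulVec, E.eig, smul_smul]), smul_dotProduct, smul_eq_mul]
  ring

theorem norm_sq (v : I → ℝ) : v ⬝ᵥ v = ∑ i, (E.u i ⬝ᵥ v) ^ 2 := by
  rw [E.pars]
  exact Finset.sum_congr rfl fun i _ => (sq _).symm

theorem n_eq (i : I) : E.u i ⬝ᵥ N *ᵥ E.u i = E.n i := by
  rw [E.eig, dotProduct_smul, E.unit, smul_eq_mul, mul_one]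

theorem trace_exp (t : ℝ) : ∑ j, exp (t • N) j j = ∑ i, Real.exp (t * E.n i) := by
  have h : ∀ j, exp (t • N) j j = ∑ i, (E.u i j) ^ 2 * Real.exp (t * E.n i) := by
    intro j
    have := E.quad_exp t (Pi.single j 1)
    simpa using this
  simp only [h]
  rw [Finset.sum_comm]
  refine Finset.sum_congr rfl fun i _ => ?_
  rw [← Finset.sum_mul]
  have h1 : ∑ j, E.u i j ^ 2 = 1 := by simpa [dotProduct, sq] using E.unit i
  rw [h1, one_mul]

end Eig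

theorem exp_convex {ι : Type*} [Fintype ι] {c x : ι → ℝ} (h0 : ∀ i, 0 ≤ c i) (h1 : ∑ i, c i = 1) :
    Real.exp (∑ i, c i * x i) ≤ ∑ i, c i * Real.exp (x i) :=
  convexOn_exp.map_sum_le (t := univ) (fun i _ => h0 i) h1 fun _ _ => Set.mem_univ _

theorem jensen {N : Matrix I I ℝ} (h : N.IsSymm) (t : ℝ) {v : I → ℝ} (hv : v ⬝ᵥ v = 1) :
    Real.exp (t * (v ⬝ᵥ N *ᵥ v)) ≤ v ⬝ᵥ exp (t • N) *ᵥ v := by
  obtain ⟨E⟩ := exists_eig h
  rw [E.quad, E.quad_exp, Finset.mul_sum]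
  refine le_of_eq_of_le ?_ (exp_convex (fun i => sq_nonneg _) ((E.norm_sq v).symm.trans hv))
  congr 1
  exact Finset.sum_congr rfl fun i _ => by ring

theorem exp_upper {N : Matrix I I ℝ} (h : N.IsSymm) {c s t : ℝ} (hst : s ≤ t)
    (hc : ∀ w, w ⬝ᵥ N *ᵥ w ≤ -c * (w ⬝ᵥ w)) (v : I → ℝ) :
    v ⬝ᵥ exp (t • N) *ᵥ v ≤ Real.exp (-c * (t - s)) * (v ⬝ᵥ exp (s • N) *ᵥ v) := by
  obtain ⟨E⟩ := exists_eig h
  rw [E.quad_exp, E.quad_exp, Finset.mul_sum]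
  refine Finset.sum_le_sum fun i _ => ?_
  have h1 := hc (E.u i)
  rw [E.n_eq, E.unit] at h1
  rw [mul_left_comm, ← Real.exp_add]
  refine mul_le_mul_of_nonneg_left (Real.exp_le_exp.2 ?_) (sq_nonneg _)
  nlinarith

theorem trace_eq {N : Matrix I I ℝ} (E : Eig N) (W : Matrix I J ℝ) (t : ℝ) :
    ∑ j, (W *ᵥ Pi.single j 1) ⬝ᵥ exp (t • N) *ᵥ (W *ᵥ Pi.single j 1) =
      ∑ i, ((Wᵀ *ᵥ E.u i) ⬝ᵥ (Wᵀ *ᵥ E.u i)) * Real.exp (t * E.n i) := by
  simp only [E.quad_exp]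
  rw [Finset.sum_comm]
  refine Finset.sum_congr rfl fun i _ => ?_
  rw [← Finset.sum_mul]
  congr 1
  refine Finset.sum_congr rfl fun j _ => ?_
  rw [dotProduct_mulVec, ← mulVec_transpose, dotProduct_single, mul_one, sq]

theorem dot_tr (W : Matrix I J ℝ) (u : I → ℝ) (w : J → ℝ) : w ⬝ᵥ Wᵀ *ᵥ u = u ⬝ᵥ W *ᵥ w := by
  rw [dotProduct_mulVec u, ← mulVec_transpose, dotProduct_comm]

theorem trace_lower {N : Matrix I I ℝ} (hN : N.IsSymm) {A : Matrix J J ℝ} (hA : A.IsSymm)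
    {W : Matrix I J ℝ} (hW : ∀ a, (W *ᵥ a) ⬝ᵥ (W *ᵥ a) = a ⬝ᵥ a)
    (h : ∀ a, a ⬝ᵥ A *ᵥ a ≤ (W *ᵥ a) ⬝ᵥ N *ᵥ (W *ᵥ a)) {t : ℝ} (ht : 0 ≤ t) :
    ∑ j, exp (t • A) j j ≤ ∑ j, (W *ᵥ Pi.single j 1) ⬝ᵥ exp (t • N) *ᵥ (W *ᵥ Pi.single j 1) := by
  obtain ⟨E⟩ := exists_eig hN
  obtain ⟨E'⟩ := exists_eig hA
  rw [trace_eq E, E'.trace_exp]
  simp only [E'.norm_sq, Finset.sum_mul, dot_tr]
  rw [Finset.sum_comm]
  refine Finset.sum_le_sum fun k _ => ?_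
  rw [← E.quad_exp]
  refine le_trans (Real.exp_le_exp.2 ?_) (jensen hN t ((hW _).trans (E'.unit k)))
  rw [← E'.n_eq]
  exact mul_le_mul_of_nonneg_left (h _) ht

theorem trace_upper {N : Matrix I I ℝ} (hN : N.IsSymm) {A : Matrix J J ℝ} (hA : A.IsSymm)
    {W : Matrix I J ℝ} (hW : ∀ a, (W *ᵥ a) ⬝ᵥ (W *ᵥ a) = a ⬝ᵥ a) {m : ℝ}
    (h : ∀ u, u ⬝ᵥ N *ᵥ u ≤ (Wᵀ *ᵥ u) ⬝ᵥ A *ᵥ (Wᵀ *ᵥ u) - m * (u ⬝ᵥ u - (Wᵀ *ᵥ u) ⬝ᵥ (Wᵀ *ᵥ u)))
    {t : ℝ} (ht : 0 ≤ t) :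
    ∑ j, (W *ᵥ Pi.single j 1) ⬝ᵥ exp (t • N) *ᵥ (W *ᵥ Pi.single j 1) ≤
      ∑ j, exp (t • A) j j + Fintype.card J * Real.exp (-m * t) := by
  obtain ⟨E⟩ := exists_eig hN
  obtain ⟨E'⟩ := exists_eig hA
  rw [trace_eq E, E'.trace_exp]
  set c : I → J → ℝ := fun i k => (E'.u k ⬝ᵥ Wᵀ *ᵥ E.u i) ^ 2 with hc
  set s : I → ℝ := fun i => (Wᵀ *ᵥ E.u i) ⬝ᵥ (Wᵀ *ᵥ E.u i) with hs
  have h1 : ∀ i, s i = ∑ k, c i k := fun i => E'.norm_sq _
  have h2 : ∀ k, ∑ i, c i k = 1 := by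
    intro k
    simp only [hc, dot_tr]
    rw [← E.norm_sq, hW, E'.unit]
  have h0 : ∀ i k, 0 ≤ c i k := fun i k => sq_nonneg _
  have h3 : ∀ i, s i ≤ 1 := by
    intro i
    have h4 : 0 ≤ (E.u i - W *ᵥ (Wᵀ *ᵥ E.u i)) ⬝ᵥ (E.u i - W *ᵥ (Wᵀ *ᵥ E.u i)) :=
      Finset.sum_nonneg fun _ _ => mul_self_nonneg _
    rw [sub_dotProduct, dotProduct_sub, dotProduct_sub, hW, E.unit, dotProduct_comm _ (E.u i),
      ← dot_tr] at h4
    linarith
  have h4 : ∀ i, 0 ≤ s i := fun i => (h1 i).symm ▸ Finset.sum_nonneg fun k _ => h0 i k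
  have h5 : ∀ i, s i * Real.exp (t * E.n i) ≤
      ∑ k, c i k * Real.exp (t * E'.n k) + s i * Real.exp (-m * t) := by
    intro i
    have h6 := h (E.u i)
    rw [E.n_eq, E.unit, E'.quad] at h6
    have h7 := exp_convex (ι := Option J) (c := fun o => o.elim (1 - s i) (c i))
      (x := fun o => o.elim (-m * t) fun k => t * E'.n k)
      (fun o => by cases o; exacts [sub_nonneg.2 (h3 i), h0 i _])
      (by rw [Fintype.sum_option]; simp [h1])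
    rw [Fintype.sum_option, Fintype.sum_option] at h7
    simp only [Option.elim] at h7
    have h8 : t * E.n i ≤ (1 - s i) * (-m * t) + ∑ k, c i k * (t * E'.n k) := by
      have h9 : ∑ k, c i k * (t * E'.n k) = t * ∑ k, c i k * E'.n k := by
        rw [Finset.mul_sum]
        exact Finset.sum_congr rfl fun k _ => by ring
      have h10 := mul_le_mul_of_nonneg_left h6 ht
      rw [h9]
      linarith
    have h9 := (Real.exp_le_exp.2 h8).trans h7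
    have h10 : 0 ≤ ∑ k, c i k * Real.exp (t * E'.n k) :=
      Finset.sum_nonneg fun k _ => mul_nonneg (h0 i k) (Real.exp_pos _).le
    have h11 := Real.exp_pos (-m * t)
    have h12 := mul_le_mul_of_nonneg_left h9 (h4 i)
    nlinarith [h3 i, h4 i, mul_nonneg (mul_nonneg (h4 i) (h4 i)) h11.le]
  refine (Finset.sum_le_sum fun i _ => h5 i).trans (le_of_eq ?_)
  rw [Finset.sum_add_distrib, Finset.sum_comm, ← Finset.sum_mul]
  simp only [← Finset.sum_mul, h2, one_mul, h1]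
  rw [Finset.sum_comm]
  simp [h2]

end Pool.Agent.H408Z.DP
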