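import Pool.Agent.H408Z.DP.Cube
import Pool.Agent.H408Z.DP.Spec

/-!
# The killed chains: symmetrisation and quadratic forms
-/

open Finset Function Matrix NormedSpace

namespace Pool.Agent.H408Z.DP

theorem of_mulVec {I J : Type*} [Fintype I] [DecidableEq I] (L : (I → ℝ) →ₗ[ℝ] (J → ℝ))
    (g : I → ℝ) : (Matrix.of fun s s' => L (Pi.single s' 1) s) *ᵥ g = L g := by
  funext s
  conv_rhs => rw [← Finset.univ_sum_single g, map_sum, Finset.sum_apply]
  refine Finset.sum_congr rfl fun s' _ => ?_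
  have : (Pi.single s' (g s') : I → ℝ) = g s' • Pi.single s' 1 := by
    rw [← Pi.single_smul, smul_eq_mul, mul_one]
  rw [this, map_smul]
  simp [mul_comm]

theorem single_nn {I : Type*} [DecidableEq I] (i j : I) : 0 ≤ (Pi.single i 1 : I → ℝ) j := by
  rw [Pi.single_apply]
  split_ifs <;> norm_num

theorem isSymm_of {I : Type*} [Fintype I] [DecidableEq I] {N : Matrix I I ℝ}
    (h : ∀ a b, a ⬝ᵥ N *ᵥ b = (N *ᵥ a) ⬝ᵥ b) : N.IsSymm := by
  ext i j
  simpa using h (Pi.single j 1) (Pi.single i 1)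

variable {V : Type*} [DecidableEq V] {G : SimpleGraph V} [G.LocallyFinite] {F : Finset V}

theorem ext0_coe (a : F → ℝ) (x : F) : ext0 a x = a x := by simp [ext0]

theorem ext0_of_notMem (a : F → ℝ) {y : V} (h : y ∉ F) : ext0 a y = 0 := by simp [ext0, h]

theorem ext0_add (a b : F → ℝ) (y : V) : ext0 (fun x => a x + b x) y = ext0 a y + ext0 b y := by
  unfold ext0
  split_ifs <;> simp

theorem ext0_mul (c : ℝ) (a : F → ℝ) (y : V) : ext0 (fun x => c * a x) y = c * ext0 a y := by
  unfold ext0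
  split_ifs <;> simp

theorem ext0_sum {ι : Type*} [Fintype ι] (a : ι → F → ℝ) (y : V) :
    ext0 (fun x => ∑ i, a i x) y = ∑ i, ext0 (a i) y := by
  unfold ext0
  split_ifs <;> simp

theorem ext0_nonneg {a : F → ℝ} (h : ∀ x, 0 ≤ a x) (y : V) : 0 ≤ ext0 a y := by
  unfold ext0
  split_ifs
  · exact h _
  · exact le_rfl

theorem opn_nonneg {D : Sym2 V → Prop} (η : {e // D e} → Bool) (e : Sym2 V) : 0 ≤ opn η e := by
  unfold opn
  split_ifs <;> norm_num

theorem opn_le_one {D : Sym2 V → Prop} (η : {e // D e} → Bool) (e : Sym2 V) : opn η e ≤ 1 := by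
  unfold opn
  split_ifs <;> norm_num

theorem mem_edgesAt {x y : V} (hx : x ∈ F) (hy : y ∈ G.neighborFinset x) :
    s(x, y) ∈ edgesAt G F := by
  rw [SimpleGraph.mem_neighborFinset] at hy
  exact Finset.mem_biUnion.2 ⟨x, hx, by simpa [SimpleGraph.incidenceSet] using hy⟩

theorem swap_sum (f : V → V → ℝ) :
    ∑ x : F, ∑ y ∈ G.neighborFinset x, (if y ∈ F then f x y else 0) =
      ∑ x : F, ∑ y ∈ G.neighborFinset x, (if y ∈ F then f y x else 0) := by
  classical
  have key : ∀ f : V → V → ℝ, ∑ x : F, ∑ y ∈ G.neighborFinset x, (if y ∈ F then f x y else 0) =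
      ∑ x ∈ F, ∑ y ∈ F, if G.Adj x y then f x y else 0 := by
    intro f
    rw [Finset.sum_coe_sort F fun x => ∑ y ∈ G.neighborFinset x, (if y ∈ F then f x y else 0)]
    refine Finset.sum_congr rfl fun x _ => ?_
    rw [← Finset.sum_filter, ← Finset.sum_filter]
    congr 1
    ext y
    simp [and_comm]
  rw [key, key fun x y => f y x, Finset.sum_comm]
  simp only [G.adj_comm]

variable (G) in
/-- The killed Laplacian with edge weights. -/
noncomputable def lapW (w : Sym2 V → ℝ) (a : F → ℝ) (x : F) : ℝ :=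
  ∑ y ∈ G.neighborFinset x, w s(x.1, y) * (ext0 a y - a x)

variable (G) in
/-- Its Dirichlet form. -/
noncomputable def qf (w : Sym2 V → ℝ) (a : F → ℝ) : ℝ :=
  ∑ x : F, ∑ y ∈ G.neighborFinset x,
    (if y ∈ F then 1 / 2 else 1) * w s(x.1, y) * (ext0 a x - ext0 a y) ^ 2

theorem qf_nonneg {w : Sym2 V → ℝ} (hw : ∀ e, 0 ≤ w e) (a : F → ℝ) : 0 ≤ qf G w a :=
  Finset.sum_nonneg fun _ _ => Finset.sum_nonneg fun _ _ =>
    mul_nonneg (mul_nonneg (by split_ifs <;> norm_num) (hw _)) (sq_nonneg _)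

theorem lapW_symm (w : Sym2 V → ℝ) (a b : F → ℝ) :
    ∑ x, a x * lapW G w b x = ∑ x, lapW G w a x * b x := by
  have key : ∀ a b : F → ℝ, ∑ x, a x * lapW G w b x =
      ∑ x : F, ∑ y ∈ G.neighborFinset x, (if y ∈ F then w s(x.1, y) * ext0 a x * ext0 b y else 0) -
      ∑ x : F, ∑ y ∈ G.neighborFinset x, w s(x.1, y) * (a x * b x) := by
    intro a b
    rw [← Finset.sum_sub_distrib]
    refine Finset.sum_congr rfl fun x _ => ?_
    rw [lapW, Finset.mul_sum, ← Finset.sum_sub_distrib]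
    refine Finset.sum_congr rfl fun y _ => ?_
    by_cases h : y ∈ F
    · rw [if_pos h, ext0_coe]
      ring
    · rw [if_neg h, ext0_of_notMem _ h]
      ring
  simp only [mul_comm (lapW G w a _)]
  rw [key, key, swap_sum fun x y => w s(x, y) * ext0 a x * ext0 b y]
  congr 1
  · refine Finset.sum_congr rfl fun x _ => Finset.sum_congr rfl fun y _ => ?_
    rw [Sym2.eq_swap, mul_right_comm]
  · simp only [mul_comm (a _)]

theorem dot_lapW (w : Sym2 V → ℝ) (a : F → ℝ) : ∑ x, a x * lapW G w a x = -qf G w a := by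
  have h := swap_sum (G := G) (F := F) fun x y => w s(x, y) * ext0 a x ^ 2
  have h1 : ∑ x, a x * lapW G w a x + qf G w a = (1 / 2) *
      (∑ x : F, ∑ y ∈ G.neighborFinset x, (if y ∈ F then w s(y, x.1) * ext0 a y ^ 2 else 0) -
      ∑ x : F, ∑ y ∈ G.neighborFinset x, (if y ∈ F then w s(x.1, y) * ext0 a x ^ 2 else 0)) := by
    rw [qf, ← Finset.sum_add_distrib, ← Finset.sum_sub_distrib, Finset.mul_sum]
    refine Finset.sum_congr rfl fun x _ => ?_
    rw [lapW, Finset.mul_sum, ← Finset.sum_add_distrib, ← Finset.sum_sub_distrib, Finset.mul_sum]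
    refine Finset.sum_congr rfl fun y _ => ?_
    by_cases h : y ∈ F
    · rw [if_pos h, if_pos h, if_pos h, ext0_coe, Sym2.eq_swap (a := y)]
      ring
    · rw [if_neg h, if_neg h, if_neg h, ext0_of_notMem _ h, ext0_coe]
      ring
  rw [h, sub_self] at h1
  linarith

variable (G F) in
/-- The killed Laplacian as a linear map. -/
noncomputable def lapL : (F → ℝ) →ₗ[ℝ] (F → ℝ) where
  toFun := lapW G fun _ => 1
  map_add' a b := by
    funext x
    simp only [lapW, Pi.add_apply, ← Finset.sum_add_distrib]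
    refine Finset.sum_congr rfl fun y _ => ?_
    rw [show a + b = fun x => a x + b x from rfl, ext0_add]
    ring
  map_smul' c a := by
    funext x
    simp only [lapW, Pi.smul_apply, smul_eq_mul, Finset.mul_sum, RingHom.id_apply]
    refine Finset.sum_congr rfl fun y _ => ?_
    rw [show c • a = fun x => c * a x from rfl, ext0_mul]
    ring

theorem lapM_mulVec (a : F → ℝ) : lapM G F *ᵥ a = lapW G (fun _ => 1) a := by
  have : lapM G F = Matrix.of fun x z => lapL G F (Pi.single z 1) x := by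
    ext x z
    simp [lapM, lapL, lapW]
  rw [this, of_mulVec]
  rfl

theorem lapM_symm : (lapM G F).IsSymm :=
  isSymm_of fun a b => by
    rw [lapM_mulVec, lapM_mulVec]
    exact lapW_symm _ a b

theorem dot_lapM (a : F → ℝ) : a ⬝ᵥ lapM G F *ᵥ a = -qf G (fun _ => 1) a := by
  rw [lapM_mulVec]
  exact dot_lapW _ a

theorem lapM_diag (x : F) : lapM G F x x = -G.degree x.1 := by
  have h : ∀ y ∈ G.neighborFinset x, ext0 (Pi.single x 1 : F → ℝ) y - (Pi.single x 1 : F → ℝ) x =
      -1 := by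
    intro y hy
    have h1 : y ≠ x.1 := (G.ne_of_adj ((G.mem_neighborFinset _ _).1 hy)).symm
    unfold ext0
    split_ifs with h2
    · rw [Pi.single_eq_of_ne fun h => h1 (congrArg Subtype.val h)]
      simp
    · simp
  rw [lapM, Matrix.of_apply, Finset.sum_congr rfl h]
  simp

theorem lapM_offdiag (x z : F) (h : x ≠ z) : 0 ≤ lapM G F x z := by
  refine Finset.sum_nonneg fun y _ => ?_
  rw [Pi.single_eq_of_ne h, sub_zero]
  exact ext0_nonneg (single_nn z) y

variable (G F) in
/-- The generator as a linear map. -/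
noncomputable def genL (μ p : ℝ) : (St G F → ℝ) →ₗ[ℝ] (St G F → ℝ) where
  toFun := gen G μ p F
  map_add' a b := by
    funext s
    simp only [gen, Pi.add_apply, ext0_add, mul_sub, mul_add, Finset.sum_add_distrib,
      Finset.sum_sub_distrib]
    ring
  map_smul' c a := by
    funext s
    simp only [gen, Pi.smul_apply, smul_eq_mul, RingHom.id_apply, ext0_mul, mul_add,
      Finset.mul_sum]
    congr 1 <;> exact Finset.sum_congr rfl fun _ _ => by ring

theorem genM_mulVec (μ p : ℝ) (g : St G F → ℝ) : genM G μ p F *ᵥ g = gen G μ p F g :=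
  of_mulVec (genL G F μ p) g

theorem genM_offdiag {μ p : ℝ} (hμ : 0 ≤ μ) (hp : 0 ≤ p) (hp' : p ≤ 1) (s s' : St G F)
    (h : s ≠ s') : 0 ≤ genM G μ p F s s' := by
  have h0 : ∀ q, 0 ≤ (Pi.single s' 1 : St G F → ℝ) q := single_nn s'
  rw [genM, Matrix.of_apply, gen, Pi.single_eq_of_ne h]
  simp only [sub_zero]
  exact add_nonneg (Finset.sum_nonneg fun y _ => mul_nonneg (opn_nonneg _ _)
    (ext0_nonneg (fun x => h0 _) y)) (mul_nonneg hμ (Finset.sum_nonneg fun e _ =>
      add_nonneg (mul_nonneg hp (h0 _)) (mul_nonneg (sub_nonneg.2 hp') (h0 _))))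

variable (G F) in
/-- The symmetrised generator. -/
noncomputable def symL (μ : ℝ) (r : Bool → ℝ) : (St G F → ℝ) →ₗ[ℝ] (St G F → ℝ) where
  toFun h s := lapW G (opn s.2) (fun x => h (x, s.2)) s.1 +
    μ * ∑ e : edgesAt G F, (SS r e (fun η => h (s.1, η)) s.2 - h s)
  map_add' a b := by
    funext s
    simp only [lapW, SS, Pi.add_apply, ext0_add, mul_sub, mul_add, Finset.sum_add_distrib,
      Finset.sum_sub_distrib]
    ring
  map_smul' c a := by
    funext s
    simp only [lapW, SS, Pi.smul_apply, smul_eq_mul, RingHom.id_apply, ext0_mul, mul_add,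
      Finset.mul_sum]
    congr 1 <;> exact Finset.sum_congr rfl fun _ _ => by ring

variable (G F) in
/-- The matrix of the symmetrised generator. -/
noncomputable def symM (μ : ℝ) (r : Bool → ℝ) : Matrix (St G F) (St G F) ℝ :=
  Matrix.of fun s s' => symL G F μ r (Pi.single s' 1) s

theorem dot_symM (μ : ℝ) (r : Bool → ℝ) (a b : St G F → ℝ) : a ⬝ᵥ symM G F μ r *ᵥ b =
    ∑ η, ∑ x, a (x, η) * lapW G (opn η) (fun x => b (x, η)) x +
      μ * ∑ x, ∑ e : edgesAt G F, ∑ η, a (x, η) * (SS r e (fun η => b (x, η)) η - b (x, η)) := by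
  rw [Finset.sum_comm, symM, of_mulVec, dotProduct, Fintype.sum_prod_type,
    Finset.mul_sum, ← Finset.sum_add_distrib]
  refine Finset.sum_congr rfl fun x _ => ?_
  rw [Finset.sum_comm (s := (univ : Finset (edgesAt G F))), Finset.mul_sum,
    ← Finset.sum_add_distrib]
  refine Finset.sum_congr rfl fun η _ => ?_
  rw [← Finset.mul_sum]
  simp only [symL, LinearMap.coe_mk, AddHom.coe_mk]
  ring

theorem symM_symm (μ : ℝ) (r : Bool → ℝ) : (symM G F μ r).IsSymm :=
  isSymm_of fun a b => by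
    rw [dotProduct_comm _ b, dot_symM, dot_symM]
    congr 1
    · refine Finset.sum_congr rfl fun η _ => ?_
      rw [lapW_symm]
      exact Finset.sum_congr rfl fun x _ => mul_comm _ _
    · congr 1
      refine Finset.sum_congr rfl fun x _ => Finset.sum_congr rfl fun e _ => ?_
      simp only [mul_sub, Finset.sum_sub_distrib]
      rw [SS_symm]
      simp only [mul_comm]

variable {r : Bool → ℝ} (hr : r true ^ 2 + r false ^ 2 = 1)

include hr in
theorem quad_symM (μ : ℝ) (u : St G F → ℝ) : u ⬝ᵥ symM G F μ r *ᵥ u =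
    -∑ η, qf G (opn η) (fun x => u (x, η)) -
      μ * ∑ x, ∑ e : edgesAt G F, TT r e (fun η => u (x, η)) := by
  rw [dot_symM]
  simp only [dot_lapW, TT_eq'' hr, Finset.sum_neg_distrib]
  ring

variable (G F r) in
/-- The isometry onto the functions that are constant in the environment. -/
noncomputable def WW : Matrix (St G F) F ℝ := Matrix.of fun s z => if s.1 = z then rho r s.2 else 0

theorem WW_mulVec (a : F → ℝ) (s : St G F) : (WW G F r *ᵥ a) s = rho r s.2 * a s.1 := by
  simp [WW, mulVec, dotProduct]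

theorem WW_tr_mulVec (u : St G F → ℝ) (x : F) :
    ((WW G F r)ᵀ *ᵥ u) x = ∑ η, rho r η * u (x, η) := by
  simp [WW, mulVec, dotProduct, Fintype.sum_prod_type]

include hr in
theorem WW_iso (a : F → ℝ) : (WW G F r *ᵥ a) ⬝ᵥ (WW G F r *ᵥ a) = a ⬝ᵥ a := by
  rw [dotProduct, Fintype.sum_prod_type]
  refine Finset.sum_congr rfl fun x _ => ?_
  simp only [WW_mulVec]
  conv_rhs => rw [← one_mul (a x * a x), ← sum_rho_sq (ι := edgesAt G F) hr, Finset.sum_mul]
  exact Finset.sum_congr rfl fun η _ => by ring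

theorem killedQ_eq {μ p : ℝ} (h1 : r true ^ 2 = p) (h0 : r false ^ 2 = 1 - p) (x : F) (t : ℝ) :
    killedQ G μ p F x t = (WW G F r *ᵥ Pi.single x 1) ⬝ᵥ
      exp (t • symM G F μ r) *ᵥ (WW G F r *ᵥ Pi.single x 1) := by
  have hr : r true ^ 2 + r false ^ 2 = 1 := by rw [h1, h0]; ring
  let D : (St G F → ℝ) →ₗ[ℝ] (St G F → ℝ) :=
    { toFun := fun g s => rho r s.2 * g s
      map_add' := fun a b => by funext s; simp [mul_add]
      map_smul' := fun c a => by funext s; simp; ring }
  have hD : ∀ g, D ((t • genM G μ p F) *ᵥ g) = (t • symM G F μ r) *ᵥ D g := by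
    intro g
    rw [smul_mulVec, smul_mulVec, map_smul, genM_mulVec, symM, of_mulVec]
    congr 1
    funext s
    simp only [D, symL, LinearMap.coe_mk, AddHom.coe_mk, gen, lapW, ext0_mul,
      SS_rho_mul hr _ fun η => g (s.1, η), h1, h0, mul_add, Finset.mul_sum]
    congr 1 <;> exact Finset.sum_congr rfl fun _ _ => by ring
  have h2 := exp_intertwine D hD fun s => (Pi.single x 1 : F → ℝ) s.1
  have h3 : D (fun s => (Pi.single x 1 : F → ℝ) s.1) = WW G F r *ᵥ Pi.single x 1 :=
    funext fun s => (WW_mulVec _ s).symm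
  rw [h3] at h2
  rw [← h2, dotProduct, Fintype.sum_prod_type, Finset.sum_eq_single x
    (fun y _ hy => by simp [WW_mulVec, Pi.single_eq_of_ne hy]) (by simp), killedQ]
  refine Finset.sum_congr rfl fun η _ => ?_
  have h4 : wt p η = rho r η ^ 2 := by
    rw [wt, rho, ← Finset.prod_pow]
    exact Finset.prod_congr rfl fun e _ => by cases η e <;> simp [h1, h0]
  rw [WW_mulVec, h4]
  simp only [D, LinearMap.coe_mk, AddHom.coe_mk, mulVec, dotProduct, Fintype.sum_prod_type,
    Pi.single_eq_same]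
  rw [Finset.sum_eq_single x (fun y _ hy => by simp [Pi.single_eq_of_ne hy]) (by simp)]
  simp only [Pi.single_eq_same, mul_one]
  ring

include hr in
theorem quad_WW (μ : ℝ) (a : F → ℝ) : (WW G F r *ᵥ a) ⬝ᵥ symM G F μ r *ᵥ (WW G F r *ᵥ a) =
    r true ^ 2 * (a ⬝ᵥ lapM G F *ᵥ a) := by
  rw [quad_symM hr, dot_lapM]
  simp only [WW_mulVec]
  have h1 : ∀ (x : F) (e : edgesAt G F), TT r e (fun η => rho r η * a x) = 0 := by
    intro x e
    simp only [TT, SS_rho_mul hr e fun _ => a x, ← add_mul, hr]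
    simp
  have h2 : ∀ e : edgesAt G F, ∑ η : edgesAt G F → Bool, rho r η ^ 2 * opn η e.1 = r true ^ 2 := by
    intro e
    have h3 := SS_symm (r := r) e (rho r) fun η => rho r η * (if η e then 1 else 0)
    simp only [SS_rho hr, SS_rho_mul hr e fun η => if η e then 1 else 0, update_self] at h3
    simp only [if_true, Bool.false_eq_true, if_false, mul_one, mul_zero, add_zero, ← mul_assoc,
      ← sq, ← Finset.sum_mul, sum_rho_sq hr, one_mul] at h3
    rw [h3]
    exact Finset.sum_congr rfl fun η _ => by simp [opn, e.2]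
  simp only [h1, Finset.sum_const_zero, mul_zero, sub_zero, qf, ext0_mul, mul_neg, neg_inj]
  rw [Finset.sum_comm, Finset.mul_sum]
  refine Finset.sum_congr rfl fun x _ => ?_
  rw [Finset.sum_comm, Finset.mul_sum]
  refine Finset.sum_congr rfl fun y hy => ?_
  rw [← h2 ⟨_, mem_edgesAt x.2 hy⟩, Finset.sum_mul]
  exact Finset.sum_congr rfl fun η _ => by ring

include hr in
theorem form_ineq (u : St G F → ℝ) : r true ^ 2 * ∑ η, qf G (fun _ => 1) (fun x => u (x, η)) ≤
    2 * ∑ η, qf G (opn η) (fun x => u (x, η)) +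
      8 * ∑ x, ∑ e : edgesAt G F, TT r e (fun η => u (x, η)) := by
  let T : Sym2 V → V → ℝ := fun e y =>
    if h : e ∈ edgesAt G F then TT r (⟨e, h⟩ : edgesAt G F) fun η => ext0 (fun x => u (x, η)) y else 0
  have hT0 : ∀ e y, 0 ≤ T e y := by
    intro e y
    simp only [T]
    split_ifs
    · exact TT_nonneg _ _
    · exact le_rfl
  have hT1 : ∀ e y, y ∉ F → T e y = 0 := by
    intro e y hy
    simp [T, ext0_of_notMem _ hy, TT, SS]
  have hT2 : ∀ x : F, ∑ y ∈ G.neighborFinset x, T s(x.1, y) x ≤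
      ∑ e : edgesAt G F, TT r e (fun η => u (x, η)) := by
    intro x
    have h1 : ∑ e : edgesAt G F, TT r e (fun η => u (x, η)) = ∑ e ∈ edgesAt G F, T e x := by
      rw [← Finset.sum_coe_sort (edgesAt G F)]
      exact Finset.sum_congr rfl fun e _ => by simp [T, e.2, ext0_coe]
    rw [h1, ← Finset.sum_image (g := fun y => s(x.1, y)) (f := fun e => T e x)
      fun y _ y' _ h => Sym2.congr_right.1 h]
    refine Finset.sum_le_sum_of_subset_of_nonneg (fun e he => ?_) fun e _ _ => hT0 e x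
    obtain ⟨y, hy, rfl⟩ := Finset.mem_image.1 he
    exact mem_edgesAt x.2 hy
  have h1 : r true ^ 2 * ∑ η, qf G (fun _ => 1) (fun x => u (x, η)) ≤
      2 * ∑ η, qf G (opn η) (fun x => u (x, η)) +
        4 * ∑ x : F, ∑ y ∈ G.neighborFinset x, T s(x.1, y) x +
        4 * ∑ x : F, ∑ y ∈ G.neighborFinset x, (if y ∈ F then T s(x.1, y) y else 0) := by
    unfold qf
    rw [Finset.sum_comm, Finset.sum_comm (γ := edgesAt G F → Bool)]
    simp only [Finset.mul_sum (s := (univ : Finset F)), ← Finset.sum_add_distrib]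
    refine Finset.sum_le_sum fun x _ => ?_
    rw [Finset.sum_comm, Finset.sum_comm (γ := edgesAt G F → Bool)]
    simp only [Finset.mul_sum (s := G.neighborFinset x), ← Finset.sum_add_distrib]
    refine Finset.sum_le_sum fun y hy => ?_
    have h2 := edge_ineq hr (⟨_, mem_edgesAt x.2 hy⟩ : edgesAt G F)
      (fun η => ext0 (fun x => u (x, η)) x) fun η => ext0 (fun x => u (x, η)) y
    have h3 : ∀ z, T s(x.1, y) z = TT r (⟨_, mem_edgesAt x.2 hy⟩ : edgesAt G F)
      (fun η => ext0 (fun x => u (x, η)) z) := fun z => dif_pos _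
    have h4 : ∀ η : edgesAt G F → Bool, opn η s(x.1, y) =
        if η ⟨_, mem_edgesAt x.2 hy⟩ then 1 else 0 := fun η => dif_pos _
    rw [← h3, ← h3] at h2
    simp only [h4, mul_assoc, ← Finset.mul_sum, one_mul]
    have h5 := hT0 s(x.1, y) x
    have h6 := hT0 s(x.1, y) y
    by_cases h : y ∈ F
    · simp only [if_pos h]
      linarith
    · rw [hT1 _ _ h] at h2
      simp only [if_neg h]
      linarith
  rw [swap_sum fun x y => T s(x, y) y] at h1
  have h2 : ∑ x : F, ∑ y ∈ G.neighborFinset x, (if y ∈ F then T s(y, x.1) x else 0) ≤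
      ∑ x : F, ∑ y ∈ G.neighborFinset x, T s(x.1, y) x := by
    refine Finset.sum_le_sum fun x _ => Finset.sum_le_sum fun y _ => ?_
    rw [Sym2.eq_swap]
    split_ifs
    · exact le_rfl
    · exact hT0 _ _
  have h3 := Finset.sum_le_sum fun x (_ : x ∈ univ) => hT2 x
  linarith

include hr in
theorem qf_tr (u : St G F → ℝ) :
    qf G (fun _ => 1) ((WW G F r)ᵀ *ᵥ u) ≤ ∑ η, qf G (fun _ => 1) (fun x => u (x, η)) := by
  unfold qf
  rw [Finset.sum_comm]
  refine Finset.sum_le_sum fun x _ => ?_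
  rw [Finset.sum_comm]
  refine Finset.sum_le_sum fun y _ => ?_
  rw [← Finset.mul_sum]
  refine mul_le_mul_of_nonneg_left ?_ (by split_ifs <;> norm_num)
  rw [show (WW G F r)ᵀ *ᵥ u = fun x => ∑ η, rho r η * u (x, η) from funext (WW_tr_mulVec u)]
  simp only [ext0_sum, ext0_mul, ← Finset.sum_sub_distrib, ← mul_sub]
  refine (Finset.sum_mul_sq_le_sq_mul_sq _ _ _).trans ?_
  rw [sum_rho_sq hr, one_mul]

include hr in
theorem es_all (h1 : r true ≠ 0) (u : St G F → ℝ) :
    u ⬝ᵥ u - ((WW G F r)ᵀ *ᵥ u) ⬝ᵥ ((WW G F r)ᵀ *ᵥ u) ≤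
      ∑ x, ∑ e : edgesAt G F, TT r e (fun η => u (x, η)) := by
  rw [dotProduct, dotProduct, Fintype.sum_prod_type, ← Finset.sum_sub_distrib]
  refine Finset.sum_le_sum fun x _ => ?_
  simpa only [WW_tr_mulVec, sq] using efron_stein hr h1 fun η => u (x, η)

end Pool.Agent.H408Z.DP
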