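import Pool.Agent.H408Z.DP.Model

/-!
# Domain monotonicity and invariance under automorphisms
-/

open Finset Function Matrix NormedSpace

namespace Pool.Agent.H408Z.DP

variable {V : Type*} [DecidableEq V] {G : SimpleGraph V} [G.LocallyFinite] {F F' : Finset V}

theorem sum_nbr (φ : G ≃g G) (x : V) (f : V → ℝ) :
    ∑ y ∈ G.neighborFinset (φ x), f y = ∑ y ∈ G.neighborFinset x, f (φ y) :=
  (Finset.sum_equiv φ.toEquiv (fun y => by
    simp only [SimpleGraph.mem_neighborFinset]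
    exact φ.map_rel_iff.symm) fun _ _ => rfl).symm

variable (φ : G ≃g G) (hφ : ∀ x ∈ F, φ x ∈ F')
include hφ

theorem ext0_ext0 (a : F → ℝ) (y : V) :
    ext0 (fun x : F' => ext0 a (φ.symm x)) (φ y) = ext0 a y := by
  by_cases h : φ y ∈ F'
  · rw [ext0, dif_pos h]
    simp
  · rw [ext0_of_notMem _ h, ext0_of_notMem _ fun h1 => h (hφ y h1)]

theorem lapW_mono {w w' : Sym2 V → ℝ} (hw' : ∀ e, 0 ≤ w' e)
    (hw : ∀ x ∈ F, ∀ y ∈ G.neighborFinset x, w' s(φ x, φ y) = w s(x, y)) {a : F → ℝ}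
    (ha : ∀ x, 0 ≤ a x) (x' : F') :
    ext0 (lapW G w a) (φ.symm x') ≤ lapW G w' (fun x : F' => ext0 a (φ.symm x)) x' := by
  by_cases h : φ.symm x' ∈ F
  · obtain ⟨x', hx'⟩ := x'
    obtain ⟨x, rfl⟩ := φ.surjective x'
    simp only [RelIso.symm_apply_apply] at h
    refine le_of_eq ?_
    simp only [lapW, RelIso.symm_apply_apply]
    rw [sum_nbr, ext0, dif_pos h]
    refine Finset.sum_congr rfl fun y hy => ?_
    rw [hw x h y hy, ext0_ext0 φ hφ, ← ext0_coe a ⟨x, h⟩]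
  · rw [ext0_of_notMem _ h]
    refine Finset.sum_nonneg fun y _ => mul_nonneg (hw' _) ?_
    dsimp only
    rw [ext0_of_notMem _ h, sub_zero]
    exact ext0_nonneg (fun _ => ext0_nonneg ha _) _

/-- Transport of functions on vertices. -/
def JP : (F → ℝ) →ₗ[ℝ] (F' → ℝ) where
  toFun a x := ext0 a (φ.symm x)
  map_add' a b := funext fun x => ext0_add a b _
  map_smul' c a := funext fun x => ext0_mul c a _

theorem ext0_single (x : F) (x' : F') :
    ext0 (Pi.single x 1 : F → ℝ) (φ.symm x') = (Pi.single ⟨φ x, hφ x x.2⟩ 1 : F' → ℝ) x' := by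
  by_cases h : x' = ⟨φ x, hφ x x.2⟩
  · subst h
    simp [ext0_coe]
  · rw [Pi.single_eq_of_ne h, ext0]
    split_ifs with h1
    · refine Pi.single_eq_of_ne (fun h2 => h (Subtype.ext ?_)) _
      rw [← h2]
      simp
    · rfl

theorem killedP_mono (x : F) {t : ℝ} (ht : 0 ≤ t) : exp (t • lapM G F) x x ≤
    exp (t • lapM G F') ⟨φ x, hφ x x.2⟩ ⟨φ x, hφ x x.2⟩ := by
  have h := exp_mono (A := t • lapM G F) (A' := t • lapM G F')
    (fun i j h => mul_nonneg ht (lapM_offdiag i j h))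
    (fun i j h => mul_nonneg ht (lapM_offdiag i j h)) (JP φ) (fun g hg => by
      rw [smul_mulVec, smul_mulVec, map_smul, lapM_mulVec, lapM_mulVec]
      exact smul_le_smul_of_nonneg_left (fun x' => lapW_mono φ hφ (fun _ => zero_le_one)
        (fun _ _ _ _ => rfl) hg x') ht) (g := Pi.single x 1) (single_nn x) ⟨φ x, hφ x x.2⟩
  have h1 : JP φ (Pi.single x 1 : F → ℝ) = (Pi.single ⟨φ x, hφ x x.2⟩ 1 : F' → ℝ) :=
    funext (ext0_single φ hφ x)
  rw [h1] at h
  simpa [JP, ext0_coe] using h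

theorem map_mem {e : Sym2 V} (he : e ∈ edgesAt G F) : e.map φ ∈ edgesAt G F' := by
  obtain ⟨x, hx, h⟩ := Finset.mem_biUnion.1 he
  rw [SimpleGraph.mem_incidenceFinset] at h
  refine Finset.mem_biUnion.2 ⟨φ x, hφ x hx, ?_⟩
  rw [SimpleGraph.mem_incidenceFinset]
  exact ⟨φ.toHom.map_mem_edgeSet h.1, Sym2.mem_map.2 ⟨x, h.2, rfl⟩⟩

/-- Transport of edges. -/
def jE (e : edgesAt G F) : edgesAt G F' := ⟨e.1.map φ, map_mem φ hφ e.2⟩

theorem jE_inj : Injective (jE φ hφ) := fun _ _ h =>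
  Subtype.ext (Sym2.map.injective φ.injective (congrArg Subtype.val h))

/-- Transport of functions on states. -/
def JQ : (St G F → ℝ) →ₗ[ℝ] (St G F' → ℝ) where
  toFun g s := ext0 (fun x => g (x, s.2 ∘ jE φ hφ)) (φ.symm s.1)
  map_add' a b := funext fun s => ext0_add _ _ _
  map_smul' c a := funext fun s => ext0_mul c _ _

omit hφ in
theorem sum_refresh {ι κ : Type*} [Fintype ι] [DecidableEq ι] [Fintype κ] [DecidableEq κ]
    {j : ι → κ} (hj : Injective j) (p : ℝ) (k : (ι → Bool) → ℝ) (η : κ → Bool) :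
    ∑ e, (p * k (update η e true ∘ j) + (1 - p) * k (update η e false ∘ j) - k (η ∘ j)) =
      ∑ e, (p * k (update (η ∘ j) e true) + (1 - p) * k (update (η ∘ j) e false) - k (η ∘ j)) := by
  symm
  refine Fintype.sum_of_injective j hj _ _ (fun e he => ?_) fun e => ?_
  · have h : ∀ i, j i ≠ e := fun i h => he ⟨i, h⟩
    rw [update_comp_eq_of_forall_ne _ _ h, update_comp_eq_of_forall_ne _ _ h]
    ring
  · rw [update_comp_eq_of_injective _ hj, update_comp_eq_of_injective _ hj]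

theorem gen_mono (μ p : ℝ) {g : St G F → ℝ} (hg : 0 ≤ g) :
    JQ φ hφ (gen G μ p F g) ≤ gen G μ p F' (JQ φ hφ g) := by
  intro s
  have h1 := lapW_mono φ hφ (w := opn (s.2 ∘ jE φ hφ)) (w' := opn s.2) (opn_nonneg _)
    (fun x hx y hy => by
      have h2 := mem_edgesAt hx hy
      have h3 : s(φ x, φ y) ∈ edgesAt G F' := map_mem φ hφ h2
      rw [opn, opn, dif_pos h2, dif_pos h3]
      rfl) (a := fun x => g (x, s.2 ∘ jE φ hφ)) (fun x => hg _) s.1
  have h2 := sum_refresh (jE_inj φ hφ) p (fun η => ext0 (fun x => g (x, η)) (φ.symm s.1)) s.2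
  change ext0 (fun x => lapW G (opn (s.2 ∘ jE φ hφ)) (fun x => g (x, s.2 ∘ jE φ hφ)) x +
      μ * ∑ e : edgesAt G F, (p * g (x, update (s.2 ∘ jE φ hφ) e true) +
        (1 - p) * g (x, update (s.2 ∘ jE φ hφ) e false) - g (x, s.2 ∘ jE φ hφ))) (φ.symm s.1) ≤
    lapW G (opn s.2) (fun x : F' => ext0 (fun x => g (x, s.2 ∘ jE φ hφ)) (φ.symm x)) s.1 +
      μ * ∑ e : edgesAt G F',
        (p * ext0 (fun x => g (x, update s.2 e true ∘ jE φ hφ)) (φ.symm s.1) +
        (1 - p) * ext0 (fun x => g (x, update s.2 e false ∘ jE φ hφ)) (φ.symm s.1) -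
        ext0 (fun x => g (x, s.2 ∘ jE φ hφ)) (φ.symm s.1))
  rw [h2, ext0_add]
  refine add_le_add h1 (le_of_eq ?_)
  unfold ext0
  split_ifs <;> simp

omit hφ in
theorem wt_nonneg {ι : Type*} [Fintype ι] {p : ℝ} (hp : 0 ≤ p) (hp' : p ≤ 1) (η : ι → Bool) :
    0 ≤ wt p η :=
  Finset.prod_nonneg fun e _ => by split_ifs; exacts [hp, sub_nonneg.2 hp']

omit hφ in
theorem killedQ_eq_mulVec (μ p : ℝ) (x : F) (t : ℝ) : killedQ G μ p F x t =
    ∑ η, wt p η * (exp (t • genM G μ p F) *ᵥ fun s => (Pi.single x 1 : F → ℝ) s.1) (x, η) := by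
  refine Finset.sum_congr rfl fun η _ => ?_
  simp only [mulVec, dotProduct, Fintype.sum_prod_type]
  rw [Finset.sum_eq_single x (fun y _ hy => by simp [Pi.single_eq_of_ne hy]) (by simp)]
  simp

theorem killedQ_mono {μ p : ℝ} (hμ : 0 ≤ μ) (hp : 0 ≤ p) (hp' : p ≤ 1) (x : F) {t : ℝ}
    (ht : 0 ≤ t) : killedQ G μ p F x t ≤ killedQ G μ p F' ⟨φ x, hφ x x.2⟩ t := by
  have h := exp_mono (A := t • genM G μ p F) (A' := t • genM G μ p F')
    (fun i j h => mul_nonneg ht (genM_offdiag hμ hp hp' i j h))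
    (fun i j h => mul_nonneg ht (genM_offdiag hμ hp hp' i j h)) (JQ φ hφ) (fun g hg => by
      rw [smul_mulVec, smul_mulVec, map_smul, genM_mulVec, genM_mulVec]
      exact smul_le_smul_of_nonneg_left (gen_mono φ hφ μ p hg) ht)
    (g := fun s => (Pi.single x 1 : F → ℝ) s.1) fun s => single_nn x s.1
  have h1 : JQ φ hφ (fun s => (Pi.single x 1 : F → ℝ) s.1) =
      fun s => (Pi.single ⟨φ x, hφ x x.2⟩ 1 : F' → ℝ) s.1 :=
    funext fun s => ext0_single φ hφ x s.1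
  rw [h1] at h
  rw [killedQ_eq_mulVec, killedQ_eq_mulVec, ← sum_wt_comp (jE_inj φ hφ)]
  refine Finset.sum_le_sum fun η _ => mul_le_mul_of_nonneg_left ?_ (wt_nonneg hp hp' η)
  refine le_trans (le_of_eq ?_) (h (⟨φ x, hφ x x.2⟩, η))
  simp [JQ, ext0_coe]

end Pool.Agent.H408Z.DP
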